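import Pool.Agent.H74.TR.Basic

namespace Pool.Agent.H74.TR

/-- the same numbers with index shifted by two: `0, 1, 1, 2, 4, 7, ...` -/
def V : ℕ → ℕ
  | 0 => 0
  | 1 => 1
  | 2 => 1
  | (k + 3) => V (k + 2) + V (k + 1) + V k

theorem V_rec (k : ℕ) : V (k + 3) = V (k + 2) + V (k + 1) + V k := rfl

theorem V_W : ∀ k, V (k + 2) = W k
  | 0 => rfl
  | 1 => rfl
  | 2 => rfl
  | (k + 3) => by
    have h1 := V_W k
    have h2 := V_W (k + 1)
    have h3 := V_W (k + 2)
    have e1 : V (k + 3 + 2) = V (k + 2 + 2) + V (k + 1 + 2) + V (k + 2) := rfl
    rw [e1, h1, h2, h3]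
    rfl

/-- the word of blocks `1a0` -/
def blk (l : List Bool) : List Bool := l.flatMap (fun a => [true, a, false])

theorem blk_nil : blk [] = [] := rfl

theorem blk_cons (a : Bool) (l : List Bool) : blk (a :: l) = true :: a :: false :: blk l := by
  simp [blk]

theorem blk_append (l m : List Bool) : blk (l ++ m) = blk l ++ blk m := by
  simp [blk]

theorem blk_length (l : List Bool) : (blk l).length = 3 * l.length := by
  induction l with
  | nil => rfl
  | cons a l ih => rw [blk_cons]; simp only [List.length_cons, ih]; omega

theorem blk_foldl (l : List Bool) : (blk l).foldl stp (some 0) = some 0 := by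
  induction l with
  | nil => rfl
  | cons a l ih =>
    rw [blk_cons]
    cases a <;> simpa [stp] using ih

theorem cls_blk (l : List Bool) : cls (blk l) = some 0 := blk_foldl l

theorem valS_nil (s : ℕ) : valS s [] = 0 := rfl

theorem valS_cons (s : ℕ) (d : Bool) (w : List Bool) :
    valS s (d :: w) = (if d then V (w.length + s + 2) else 0) + valS s w := by
  simp only [valS, V_W]

/-- adding at the place `0` above `blk up`: the carry runs upwards -/
theorem up_step (up : List Bool) : ∃ U : List Bool, (∃ q, cls U = some q) ∧
    ∀ s, valS s U = valS s (blk up) + V (s + 2) := by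
  induction up using List.reverseRecOn with
  | nil =>
    refine ⟨[true], ⟨1, rfl⟩, fun s => ?_⟩
    simp [valS_cons, valS_nil, blk_nil]
  | append_singleton up a ih =>
    cases a with
    | false =>
      refine ⟨blk up ++ [true, false, true], ⟨1, ?_⟩, fun s => ?_⟩
      · rw [cls_append, cls_blk]; rfl
      · rw [valS_append, blk_append, valS_append]
        have : blk [false] = [true, false, false] := rfl
        rw [this]
        simp only [valS_cons, valS_nil, List.length_cons, List.length_nil]
        simp
        omega
    | true =>
      obtain ⟨U, ⟨q, hq⟩, hU⟩ := ih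
      refine ⟨U ++ [false, false, false], ⟨0, ?_⟩, fun s => ?_⟩
      · rw [cls_append, hq]; rfl
      · rw [valS_append, blk_append, valS_append]
        have : blk [true] = [true, true, false] := rfl
        rw [this]
        simp only [valS_cons, valS_nil, List.length_cons, List.length_nil]
        rw [hU]
        have e := V_rec (s + 2)
        have e1 : 0 + 1 + 1 + 1 + s + 2 = s + 2 + 3 := by omega
        have e2 : 0 + 1 + 1 + s + 2 = s + 2 + 2 := by omega
        have e3 : 0 + 1 + s + 2 = s + 2 + 1 := by omega
        rw [e1, e, e2, e3]
        simp
        omega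

/-- lower part with one incoming carry -/
theorem low10 (A : List Bool) : ∃ D : List Bool, D.length = 3 * A.length ∧
    val (blk A) + V (3 * A.length + 1) = V (3 * A.length + 2) + val D ∧
    ∀ q : Fin 3, q ≠ 0 → ∃ q' : Fin 3, q' ≠ 0 ∧ D.foldl stp (some q) = some q' := by
  induction A with
  | nil =>
    refine ⟨[], rfl, rfl, fun q hq => ⟨q, hq, rfl⟩⟩
  | cons a A ih =>
    obtain ⟨D, h1, h2, h3⟩ := ih
    refine ⟨false :: a :: true :: D, ?_, ?_, ?_⟩
    · simp only [List.length_cons, h1]; omega
    · rw [blk_cons]
      rw [val_eq, val_eq] at *
      simp only [valS_cons, List.length_cons, h1, blk_length]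
      have e0 := V_rec (3 * A.length)
      have e1 := V_rec (3 * A.length + 1)
      have e2 := V_rec (3 * A.length + 2)
      have f1 : 3 * (A.length + 1) + 1 = 3 * A.length + 4 := by ring
      have f2 : 3 * (A.length + 1) + 2 = 3 * A.length + 5 := by ring
      rw [f1, f2]
      simp only [Nat.add_assoc, Nat.reduceAdd, Nat.add_zero, if_true, Bool.false_eq_true,
        if_false, Nat.zero_add] at *
      generalize (if a = true then V (3 * A.length + 3) else 0) = z at *
      omega
    · intro q _
      cases a with
      | false =>
        obtain ⟨q', hq', h⟩ := h3 1 (by decide)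
        exact ⟨q', hq', by simpa [stp] using h⟩
      | true =>
        obtain ⟨q', hq', h⟩ := h3 2 (by decide)
        refine ⟨q', hq', ?_⟩
        have : (false :: true :: true :: D).foldl stp (some q) = D.foldl stp (some 2) := rfl
        rw [this]
        exact h

/-- lower part with two incoming carries -/
theorem low11 (A : List Bool) : ∃ D : List Bool, D.length = 3 * A.length ∧
    val (blk A) + V (3 * A.length + 1) + V (3 * A.length) = V (3 * A.length + 2) + val D ∧
    ∃ q' : Fin 3, q' ≠ 0 ∧ D.foldl stp (some 1) = some q' := by
  induction A with
  | nil =>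
    refine ⟨[], rfl, rfl, ⟨1, by decide, rfl⟩⟩
  | cons a A ih =>
    cases a with
    | true =>
      obtain ⟨D, h1, h2, q', hq', h3⟩ := ih
      refine ⟨true :: false :: true :: D, ?_, ?_, q', hq', ?_⟩
      · simp only [List.length_cons, h1]; omega
      · rw [blk_cons]
        rw [val_eq, val_eq] at *
        simp only [valS_cons, List.length_cons, h1, blk_length]
        have e0 := V_rec (3 * A.length)
        have e1 := V_rec (3 * A.length + 1)
        have e2 := V_rec (3 * A.length + 2)
        have f0 : 3 * (A.length + 1) = 3 * A.length + 3 := by ring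
        have f1 : 3 * (A.length + 1) + 1 = 3 * A.length + 4 := by ring
        have f2 : 3 * (A.length + 1) + 2 = 3 * A.length + 5 := by ring
        rw [f1, f2, f0]
        simp only [Nat.add_assoc, Nat.reduceAdd, Nat.add_zero, if_true, Bool.false_eq_true,
          if_false, Nat.zero_add] at *
        omega
      · have : (true :: false :: true :: D).foldl stp (some 1) = D.foldl stp (some 1) := rfl
        rw [this]
        exact h3
    | false =>
      obtain ⟨D, h1, h2, h3⟩ := low10 A
      obtain ⟨q', hq', h⟩ := h3 2 (by decide)
      refine ⟨false :: true :: true :: D, ?_, ?_, q', hq', ?_⟩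
      · simp only [List.length_cons, h1]; omega
      · rw [blk_cons]
        rw [val_eq, val_eq] at *
        simp only [valS_cons, List.length_cons, h1, blk_length]
        have e0 := V_rec (3 * A.length)
        have e1 := V_rec (3 * A.length + 1)
        have e2 := V_rec (3 * A.length + 2)
        have f0 : 3 * (A.length + 1) = 3 * A.length + 3 := by ring
        have f1 : 3 * (A.length + 1) + 1 = 3 * A.length + 4 := by ring
        have f2 : 3 * (A.length + 1) + 2 = 3 * A.length + 5 := by ring
        rw [f1, f2, f0]
        simp only [Nat.add_assoc, Nat.reduceAdd, Nat.add_zero, if_true, Bool.false_eq_true,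
          if_false, Nat.zero_add] at *
        omega
      · have : (false :: true :: true :: D).foldl stp (some 1) = D.foldl stp (some 2) := rfl
        rw [this]
        exact h

/-- `[blk (up ++ false :: low)] + W (3|low|+1) = [blk (up ++ true :: low)]` -/
theorem add_false (up low : List Bool) :
    val (blk (up ++ false :: low)) + W (3 * low.length + 1) = val (blk (up ++ true :: low)) := by
  rw [blk_append, blk_append, blk_cons, blk_cons]
  simp only [val_eq, valS_append, valS_cons, List.length_cons, blk_length, ← V_W]
  simp
  ring

theorem add_true (up low : List Bool) : ∃ w : List Bool,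
    val (blk (up ++ true :: low)) + W (3 * low.length + 1) = val w ∧
    ∃ q : Fin 3, q ≠ 0 ∧ cls w = some q := by
  obtain ⟨U, ⟨q0, hq0⟩, hU⟩ := up_step up
  obtain ⟨D, h1, h2, q', hq', h3⟩ := low11 low
  refine ⟨U ++ (false :: false :: true :: D), ?_, q', hq', ?_⟩
  · rw [blk_append, blk_cons]
    rw [val_eq] at *
    simp only [val_eq, valS_append, valS_cons, List.length_cons, blk_length, ← V_W, h1, hU] at *
    have e0 := V_rec (3 * low.length)
    have e1 := V_rec (3 * low.length + 1)
    have e2 := V_rec (3 * low.length + 2)
    simp only [Nat.add_assoc, Nat.reduceAdd, Nat.add_zero, if_true, Bool.false_eq_true,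
      if_false, Nat.zero_add] at *
    omega
  · rw [cls_append, hq0]
    have : (false :: false :: true :: D).foldl stp (some q0) = D.foldl stp (some 1) := rfl
    rw [this]
    exact h3

/-- The output after adding `W (3K+1)`. -/
theorem trib_false {r : ℕ → Fin 3} (hr : IsFixedPoint r) (up low : List Bool) :
    r (val (blk (up ++ false :: low)) + W (3 * low.length + 1)) = 0 := by
  rw [add_false]
  exact (main_val hr _ 0 (cls_blk _)).2

theorem trib_true {r : ℕ → Fin 3} (hr : IsFixedPoint r) (up low : List Bool) :
    r (val (blk (up ++ true :: low)) + W (3 * low.length + 1)) ≠ 0 := by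
  obtain ⟨w, hw, q, hq, hc⟩ := add_true up low
  rw [hw, (main_val hr w q hc).2]
  exact hq

theorem run_append {Q : Type} (M : DFAO Q) (q : Q) (u v : List Bool) :
    M.run q (u ++ v) = (M.run q u).bind (fun q' => M.run q' v) := by
  induction u generalizing q with
  | nil => rfl
  | cons d u ih =>
    simp only [List.cons_append, DFAO.run]
    cases h : M.step q d with
    | none => rfl
    | some q1 => simpa using ih q1

theorem lower {r : ℕ → Fin 3} (hr : IsFixedPoint r) (K n : ℕ)
    (h : HasDFAO (fun i => r (i + W (3 * K + 1))) n) : 2 ^ K ≤ n := by
  obtain ⟨M, -, hM⟩ := h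
  have hv : ∀ l, Valid (blk l) := fun l => valid_of_cls _ 0 (cls_blk l)
  choose g hg using fun l : List Bool => hM (blk l) (hv l)
  let F : (Fin K → Bool) → Fin n := fun f => g (List.ofFn f)
  have hF : Function.Injective F := by
    intro f f' hff
    by_contra hne
    have : ∃ i, f i ≠ f' i := by
      by_contra hc
      push Not at hc
      exact hne (funext hc)
    -- symmetric statement
    have main : ∀ f f' : Fin K → Bool, F f = F f' → ∀ i : Fin K, f i = true → f' i = false →
        False := by
      intro f f' hff i h1 h0
      have key : ∀ f : Fin K → Bool, List.ofFn f =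
          (List.ofFn f).take i ++ f i :: (List.ofFn f).drop (i + 1) := by
        intro f
        have hi : (i : ℕ) < (List.ofFn f).length := by simp
        conv_lhs => rw [← List.take_append_drop (i : ℕ) (List.ofFn f)]
        rw [List.drop_eq_getElem_cons hi]
        simp
      have hout : ∀ l m : List Bool, M.run (g l) (blk m) = M.run M.start (blk (l ++ m)) := by
        intro l m
        rw [blk_append, run_append, (hg l).1]
        rfl
      let m : List Bool := List.replicate ((i : ℕ) + 1) false
      have e1 := hg (List.ofFn f ++ m)
      have e2 := hg (List.ofFn f' ++ m)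
      have hrun : g (List.ofFn f ++ m) = g (List.ofFn f' ++ m) := by
        have a1 := hout (List.ofFn f) m
        have a2 := hout (List.ofFn f') m
        have a3 : g (List.ofFn f) = g (List.ofFn f') := hff
        rw [a3, a2, e2.1, e1.1] at a1
        exact (Option.some.inj a1).symm
      have o : r (val (blk (List.ofFn f ++ m)) + W (3 * K + 1)) =
          r (val (blk (List.ofFn f' ++ m)) + W (3 * K + 1)) := by
        have b1 : M.out (g (List.ofFn f ++ m)) =
            r (val (blk (List.ofFn f ++ m)) + W (3 * K + 1)) := e1.2
        have b2 : M.out (g (List.ofFn f' ++ m)) =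
            r (val (blk (List.ofFn f' ++ m)) + W (3 * K + 1)) := e2.2
        rw [hrun] at b1
        rw [← b1, ← b2]
      have hlen : ∀ f : Fin K → Bool, ((List.ofFn f).drop (i + 1) ++ m).length = K := by
        intro f
        have := i.isLt
        simp only [m, List.length_append, List.length_drop, List.length_ofFn,
          List.length_replicate]
        omega
      have c1 := trib_true hr ((List.ofFn f).take i) ((List.ofFn f).drop (i + 1) ++ m)
      have c2 := trib_false hr ((List.ofFn f').take i) ((List.ofFn f').drop (i + 1) ++ m)
      rw [hlen] at c1 c2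
      have d1 : List.ofFn f ++ m =
          (List.ofFn f).take i ++ true :: ((List.ofFn f).drop (i + 1) ++ m) := by
        conv_lhs => rw [key f, h1]
        simp
      have d2 : List.ofFn f' ++ m =
          (List.ofFn f').take i ++ false :: ((List.ofFn f').drop (i + 1) ++ m) := by
        conv_lhs => rw [key f', h0]
        simp
      rw [← d1] at c1
      rw [← d2] at c2
      rw [o] at c1
      exact c1 c2
    obtain ⟨i, hi⟩ := this
    cases h1 : f i with
    | true =>
      cases h2 : f' i with
      | true => exact hi (h1.trans h2.symm)
      | false => exact main f f' hff i h1 h2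
    | false =>
      cases h2 : f' i with
      | true => exact main f' f hff.symm i h2 h1
      | false => exact hi (h1.trans h2.symm)
  have := Fintype.card_le_of_injective F hF
  simpa using this

end Pool.Agent.H74.TR
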