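import Pool.Agent.H74.TR.Upper
import Pool.Agent.H74.TR.Lower

namespace Pool.Agent.H74.TR

section aut

variable {r : ℕ → Fin 3} (hr : IsFixedPoint r)

include hr in
/-- the factor of length `c+1` at position `P i + d` depends only on the factor at `i` -/
theorem fac_step (c i i' : ℕ) (d : ℕ) (hd : d ≤ 1) (h : fac r (c + 1) i = fac r (c + 1) i')
    (h2 : d = 1 → r i ≠ 2) : fac r (c + 1) (P r i + d) = fac r (c + 1) (P r i' + d) := by
  have hag : ∀ t < c + 1, r (i + t) = r (i' + t) := fun t ht => congrFun h ⟨t, ht⟩
  obtain ⟨L, e1, e2, e3, e4⟩ := P_add_agree (r := r) i i' (c + 1) hag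
  funext t
  have ht := t.isLt
  have : P r i + (d + t) < P r (i + (c + 1)) := by
    rw [e1]
    rcases Nat.lt_or_ge d 1 with h0 | h0
    · omega
    · have hd1 : d = 1 := by omega
      have := e4 (by omega) (h2 hd1)
      omega
  have := image_agree hr i i' (c + 1) hag (d + t) this
  simp only [fac]
  rw [Nat.add_assoc, Nat.add_assoc]
  exact this

/-- The automaton whose states are the factors of length `c + 1`. -/
noncomputable def facAut (r : ℕ → Fin 3) (c : ℕ) : DFAO (Set.range (fac r (c + 1))) where
  start := ⟨fac r (c + 1) 0, 0, rfl⟩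
  step := fun q d => if d = true ∧ q.1 0 = 2 then none else
    some ⟨fac r (c + 1) (P r q.2.choose + (if d then 1 else 0)), _, rfl⟩
  out := fun q => q.1 (Fin.last c)

include hr in
theorem facAut_step (c i : ℕ) (d : Bool) :
    (facAut r c).step ⟨fac r (c + 1) i, i, rfl⟩ d =
      if d = true ∧ r i = 2 then none else
        some ⟨fac r (c + 1) (P r i + (if d then 1 else 0)), _, rfl⟩ := by
  have h0 : fac r (c + 1) i 0 = r i := by simp [fac]
  simp only [facAut, h0]
  by_cases hc : d = true ∧ r i = 2
  · rw [if_pos hc, if_pos hc]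
  · rw [if_neg hc, if_neg hc]
    congr 1
    apply Subtype.ext
    have hex : ∃ j, fac r (c + 1) j = fac r (c + 1) i := ⟨i, rfl⟩
    have hch : fac r (c + 1) (Exists.choose hex) = fac r (c + 1) i := Exists.choose_spec hex
    show fac r (c + 1) (P r (Exists.choose hex) + _) = _
    apply fac_step hr c _ _ _ (by split <;> omega) hch
    intro h1 h2
    apply hc
    have e : r (Exists.choose hex) = r i := by
      have := congrFun hch 0
      simpa [fac] using this
    cases d
    · simp at h1
    · exact ⟨rfl, by rw [← e]; exact h2⟩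

include hr in
theorem facAut_run (c : ℕ) (w : List Bool) :
    (facAut r c).run (facAut r c).start w =
      (cls w).map (fun _ => ⟨fac r (c + 1) (val w), _, rfl⟩) := by
  induction w using List.reverseRecOn with
  | nil => rfl
  | append_singleton v d ih =>
    rw [run_append, ih, cls_snoc]
    cases hv : cls v with
    | none => rfl
    | some q =>
      obtain ⟨h1, h2⟩ := main_val hr v q hv
      have hval : val (v ++ [d]) = P r (val v) + (if d then 1 else 0) := by
        rw [val_eq, valS_append]
        have := h1 1
        rw [S_one] at this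
        rw [this]
        cases d <;> simp [valS, W]
      show ((facAut r c).step ⟨fac r (c + 1) (val v), _, rfl⟩ d).bind _ = _
      rw [facAut_step hr, h2]
      cases d with
      | false =>
        simp only [Bool.false_eq_true, false_and, if_false, stp, Option.map_some, Nat.add_zero]
        rw [hval]
        rfl
      | true =>
        by_cases hq : q = 2
        · simp [stp, hq]
        · simp only [true_and, if_true, hq, if_false, stp, Option.map_some]
          rw [hval]
          rfl

include hr in
theorem upper_range (c : ℕ) : (facAut r c).IsTribonacci ∧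
    (facAut r c).Generates (fun i => r (i + c)) := by
  refine ⟨⟨?_, ?_⟩, ?_⟩
  · have := facAut_step hr c 0 false
    simp only [Bool.false_eq_true, false_and, if_false] at this
    show (facAut r c).step ⟨fac r (c + 1) 0, 0, rfl⟩ false = _
    rw [this, P_zero]
    rfl
  · intro w hw
    rw [facAut_run hr, cls_of_not_valid w hw]
    rfl
  · intro w hw
    obtain ⟨q, hq⟩ := cls_of_valid w hw
    refine ⟨⟨fac r (c + 1) (val w), _, rfl⟩, ?_, ?_⟩
    · rw [facAut_run hr, hq]
      rfl
    · simp [facAut, fac]

/-- transport of an automaton along a bijection -/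
def DFAO.map {Q Q' : Type} (M : DFAO Q) (e : Q ≃ Q') : DFAO Q' where
  start := e M.start
  step := fun q d => (M.step (e.symm q) d).map e
  out := fun q => M.out (e.symm q)

theorem DFAO.map_run {Q Q' : Type} (M : DFAO Q) (e : Q ≃ Q') (q : Q) (w : List Bool) :
    (M.map e).run (e q) w = (M.run q w).map e := by
  induction w generalizing q with
  | nil => rfl
  | cons d w ih =>
    simp only [DFAO.run, DFAO.map, Equiv.symm_apply_apply]
    cases h : M.step q d with
    | none => rfl
    | some q1 => exact ih q1

theorem DFAO.map_isTribonacci {Q Q' : Type} (M : DFAO Q) (e : Q ≃ Q') (h : M.IsTribonacci) :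
    (M.map e).IsTribonacci := by
  refine ⟨?_, fun w hw => ?_⟩
  · show (M.step (e.symm (e M.start)) false).map e = some (e M.start)
    rw [Equiv.symm_apply_apply, h.1]
    rfl
  · show (M.map e).run (e M.start) w = none
    rw [DFAO.map_run, h.2 w hw]
    rfl

theorem DFAO.map_generates {Q Q' : Type} (M : DFAO Q) (e : Q ≃ Q') (f : ℕ → Fin 3)
    (h : M.Generates f) : (M.map e).Generates f := by
  intro w hw
  obtain ⟨q, h1, h2⟩ := h w hw
  refine ⟨e q, ?_, ?_⟩
  · show (M.map e).run (e M.start) w = some (e q)
    rw [DFAO.map_run, h1]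
    rfl
  · show M.out (e.symm (e q)) = _
    rw [Equiv.symm_apply_apply, h2]

include hr in
theorem upper (c : ℕ) : ∃ n ≤ 2 * c + 3, HasDFAO (fun i => r (i + c)) n := by
  classical
  have hfin : Finite (Set.range (fac r (c + 1))) := Set.toFinite _
  obtain ⟨n, ⟨e⟩⟩ := hfin.exists_equiv_fin
  refine ⟨n, ?_, ?_⟩
  · have h1 := card_fac hr (c + 1)
    have h2 : (Set.range (fac r (c + 1))).ncard = n := by
      rw [← Nat.card_coe_set_eq, Nat.card_congr e]
      simp
    omega
  · obtain ⟨h1, h2⟩ := upper_range hr c
    exact ⟨(facAut r c).map e, DFAO.map_isTribonacci _ e h1, DFAO.map_generates _ e _ h2⟩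

end aut

end Pool.Agent.H74.TR
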