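import Pool.Agent.H74.TR.Defs

namespace Pool.Agent.H74.TR

theorem W_rec (k : ℕ) : W (k + 3) = W (k + 2) + W (k + 1) + W k := rfl

section fixed

variable {r : ℕ → Fin 3} (hr : IsFixedPoint r)

/-- position where the image of letter number `n` begins -/
def P (r : ℕ → Fin 3) (n : ℕ) : ℕ := (phiWord ((List.range n).map r)).length

theorem P_zero (r : ℕ → Fin 3) : P r 0 = 0 := by simp [P, phiWord]

theorem phiWord_succ (r : ℕ → Fin 3) (n : ℕ) :
    phiWord ((List.range (n + 1)).map r) = phiWord ((List.range n).map r) ++ phi (r n) := by
  simp [phiWord, List.range_succ]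

theorem P_succ (r : ℕ → Fin 3) (n : ℕ) : P r (n + 1) = P r n + (phi (r n)).length := by
  simp only [P, phiWord_succ, List.length_append]

include hr in
theorem r_at (n t : ℕ) (ht : t < (phi (r n)).length) : (phi (r n))[t] = r (P r n + t) := by
  have h := hr.2 (n + 1)
  have h1 : (phiWord ((List.range (n + 1)).map r))[P r n + t]? = some (r (P r n + t)) := by
    rw [h]
    have : P r n + t < (phiWord ((List.range (n + 1)).map r)).length := by
      rw [phiWord_succ, List.length_append]
      exact Nat.add_lt_add_left ht _
    rw [List.getElem?_map, List.getElem?_range this]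
    rfl
  rw [phiWord_succ, List.getElem?_append_right (by simp [P])] at h1
  have h2 : P r n + t - (phiWord ((List.range n).map r)).length = t := by simp [P]
  rw [h2, List.getElem?_eq_getElem ht] at h1
  exact Option.some.inj h1

include hr in
theorem r_P (n : ℕ) : r (P r n) = 0 := by
  have h0 : 0 < (phi (r n)).length := by
    generalize r n = a
    revert a; decide
  have h := r_at hr n 0 h0
  rw [Nat.add_zero] at h
  rw [← h]
  have : ∀ a : Fin 3, ∀ h : 0 < (phi a).length, (phi a)[0] = 0 := by decide
  exact this (r n) h0

theorem P_succ' (r : ℕ → Fin 3) (n : ℕ) : P r (n + 1) = P r n + (if r n = 2 then 1 else 2) := by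
  rw [P_succ]
  have : ∀ a : Fin 3, (phi a).length = if a = 2 then 1 else 2 := by decide
  rw [this]

include hr in
theorem r_P1 (n : ℕ) : r (P r n + 1) = r n + 1 := by
  by_cases h2 : r n = 2
  · have h3 := P_succ' r n
    rw [if_pos h2] at h3
    rw [← h3, r_P hr, h2]
    decide
  · have h1 : 1 < (phi (r n)).length := by
      revert h2
      generalize r n = a
      revert a; decide
    have h := r_at hr n 1 h1
    rw [← h]
    have : ∀ a : Fin 3, a ≠ 2 → ∀ h : 1 < (phi a).length, (phi a)[1] = a + 1 := by decide
    exact this (r n) h2 h1

theorem P_ge (r : ℕ → Fin 3) (n : ℕ) : n ≤ P r n := by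
  induction n with
  | zero => exact Nat.zero_le _
  | succ n ih =>
    rw [P_succ']
    split <;> omega

theorem cover (r : ℕ → Fin 3) (N : ℕ) : ∃ m, N = P r m ∨ (N = P r m + 1 ∧ r m ≠ 2) := by
  induction N with
  | zero => exact ⟨0, Or.inl (P_zero r).symm⟩
  | succ N ih =>
    obtain ⟨m, h | ⟨h, h2⟩⟩ := ih
    · by_cases h2 : r m = 2
      · refine ⟨m + 1, Or.inl ?_⟩
        rw [P_succ', if_pos h2, h]
      · exact ⟨m, Or.inr ⟨by rw [h], h2⟩⟩
    · refine ⟨m + 1, Or.inl ?_⟩
      rw [P_succ', if_neg h2, h]

/-- lengths of iterated images -/
def len : ℕ → Fin 3 → ℕ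
  | 0, _ => 1
  | j + 1, a => if a = 0 then len j 0 + len j 1 else if a = 1 then len j 0 + len j 2 else len j 0

theorem len_zero : ∀ j, len j 0 = W j ∧ len j 1 + W j = W (j + 1) ∧ len (j + 1) 2 = W j
  | 0 => by decide
  | 1 => by decide
  | 2 => by decide
  | (j + 3) => by
    obtain ⟨a1, a2, a3⟩ := len_zero j
    obtain ⟨b1, b2, b3⟩ := len_zero (j + 1)
    obtain ⟨c1, c2, c3⟩ := len_zero (j + 2)
    have e0 : ∀ j, len (j + 1) 0 = len j 0 + len j 1 := fun j => by simp [len]
    have e1 : ∀ j, len (j + 1) 1 = len j 0 + len j 2 := fun j => by simp [len]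
    have e2 : ∀ j, len (j + 1) 2 = len j 0 := fun j => by simp [len]
    have w1 := W_rec j
    have w2 := W_rec (j + 1)
    have f0 := e0 (j + 2)
    have f1 := e1 (j + 2)
    have f2 := e2 (j + 3)
    refine ⟨?_, ?_, ?_⟩
    · show len (j + 2 + 1) 0 = W (j + 3)
      rw [f0, c1]
      have : W (j + 2 + 1) = W (j + 3) := rfl
      omega
    · show len (j + 2 + 1) 1 + W (j + 3) = W (j + 1 + 3)
      rw [f1, c1, b3]
      have : W (j + 1 + 2) = W (j + 3) := rfl
      have : W (j + 1 + 1) = W (j + 2) := rfl
      omega
    · show len (j + 3 + 1) 2 = W (j + 3)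
      rw [f2]
      show len (j + 2 + 1) 0 = W (j + 3)
      rw [f0, c1]
      have : W (j + 2 + 1) = W (j + 3) := rfl
      omega

/-- position at level `j` -/
def S (r : ℕ → Fin 3) (j : ℕ) : ℕ → ℕ
  | 0 => 0
  | n + 1 => S r j n + len j (r n)

theorem S_zero (r : ℕ → Fin 3) (n : ℕ) : S r 0 n = n := by
  induction n with
  | zero => rfl
  | succ n ih => simp [S, ih, len]

theorem S_one (r : ℕ → Fin 3) (n : ℕ) : S r 1 n = P r n := by
  induction n with
  | zero => rw [P_zero]; rfl
  | succ n ih =>
    rw [P_succ', S, ih]
    have : ∀ a : Fin 3, len 1 a = if a = 2 then 1 else 2 := by decide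
    rw [this]

include hr in
theorem S_P (j n : ℕ) : S r j (P r n) = S r (j + 1) n := by
  induction n with
  | zero => rw [P_zero]; rfl
  | succ n ih =>
    rw [P_succ']
    have h0 := r_P hr n
    have h1 := r_P1 hr n
    have hs : S r (j + 1) (n + 1) = S r (j + 1) n + len (j + 1) (r n) := rfl
    by_cases h2 : r n = 2
    · rw [if_pos h2]
      have : S r j (P r n + 1) = S r j (P r n) + len j (r (P r n)) := rfl
      rw [this, ih, h0, hs, h2]
      simp [len]
    · rw [if_neg h2]
      have e : S r j (P r n + 2) = S r j (P r n) + len j (r (P r n)) + len j (r (P r n + 1)) := rfl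
      rw [e, ih, h0, h1, hs, Nat.add_assoc]
      congr 1
      have : ∀ a : Fin 3, a ≠ 2 → len (j + 1) a = len j 0 + len j (a + 1) := by
        intro a ha
        fin_cases a
        · simp [len]
        · simp [len]
        · exact absurd rfl ha
      exact (this _ h2).symm

end fixed

/-- value with all digits moved up by `s` places -/
def valS (s : ℕ) : List Bool → ℕ
  | [] => 0
  | d :: w => (if d then W (w.length + s) else 0) + valS s w

theorem val_eq (w : List Bool) : val w = valS 0 w := by
  induction w with
  | nil => rfl
  | cons d w ih => simp [val, valS, ih]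

theorem valS_append (s : ℕ) (u v : List Bool) :
    valS s (u ++ v) = valS (v.length + s) u + valS s v := by
  induction u with
  | nil => simp [valS]
  | cons d u ih =>
    simp only [List.cons_append, valS, ih, List.length_append]
    rw [Nat.add_assoc u.length, Nat.add_assoc]

/-- one step of the three-state automaton -/
def stp : Option (Fin 3) → Bool → Option (Fin 3)
  | none, _ => none
  | some _, false => some 0
  | some q, true => if q = 2 then none else some (q + 1)

/-- the number of final ones (`none` when `111` occurs) -/
def cls (w : List Bool) : Option (Fin 3) := w.foldl stp (some 0)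

theorem cls_append (u v : List Bool) : cls (u ++ v) = v.foldl stp (cls u) := by
  simp [cls]

theorem cls_snoc (u : List Bool) (d : Bool) : cls (u ++ [d]) = stp (cls u) d := by
  simp [cls]

theorem foldl_none (w : List Bool) : w.foldl stp none = none := by
  induction w with
  | nil => rfl
  | cons d w ih => simpa [stp] using ih

theorem main_val {r : ℕ → Fin 3} (hr : IsFixedPoint r) (w : List Bool) :
    ∀ q, cls w = some q → (∀ j, S r j (val w) = valS j w) ∧ r (val w) = q := by
  induction w using List.reverseRecOn with
  | nil =>
    intro q hq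
    have : q = 0 := by
      have := Option.some.inj hq
      exact this.symm
    subst this
    exact ⟨fun j => rfl, hr.1⟩
  | append_singleton v d ih =>
    intro q hq
    rw [cls_snoc] at hq
    cases hv : cls v with
    | none => rw [hv] at hq; simp [stp] at hq
    | some q' =>
      rw [hv] at hq
      obtain ⟨h1, h2⟩ := ih q' hv
      have hval : val (v ++ [d]) = P r (val v) + (if d then 1 else 0) := by
        rw [val_eq, valS_append]
        have := h1 1
        rw [S_one] at this
        rw [this]
        cases d <;> simp [valS, W]
      cases d with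
      | false =>
        simp only [stp, Option.some.injEq] at hq
        subst hq
        rw [hval]
        simp only [Bool.false_eq_true, if_false, Nat.add_zero]
        refine ⟨fun j => ?_, r_P hr _⟩
        rw [S_P hr, h1 (j + 1), valS_append]
        simp [valS, Nat.add_comm]
      | true =>
        simp only [stp] at hq
        by_cases hq2 : q' = 2
        · rw [if_pos hq2] at hq; exact absurd hq (by simp)
        · rw [if_neg hq2] at hq
          have hq' := Option.some.inj hq
          rw [hval]
          simp only [if_true]
          refine ⟨fun j => ?_, ?_⟩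
          · have : S r j (P r (val v) + 1) = S r j (P r (val v)) + len j (r (P r (val v))) := rfl
            rw [this, S_P hr, h1 (j + 1), valS_append, r_P hr, (len_zero j).1]
            simp [valS, Nat.add_comm]
          · rw [r_P1 hr, h2, hq']

theorem cls_suffix (w : List Bool) : (cls w = some 1 → [true] <:+ w) ∧
    (cls w = some 2 → [true, true] <:+ w) := by
  induction w using List.reverseRecOn with
  | nil => constructor <;> intro h <;> simp [cls] at h
  | append_singleton v d ih =>
    rw [cls_snoc]
    cases hv : cls v with
    | none => simp [stp]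
    | some q =>
      rw [hv] at ih
      cases d with
      | false => simp [stp]
      | true =>
        constructor
        · intro _
          exact List.suffix_append v [true]
        · intro h
          simp only [stp] at h
          by_cases hq2 : q = 2
          · rw [if_pos hq2] at h; exact absurd h (by simp)
          · rw [if_neg hq2] at h
            have h3 := Option.some.inj h
            have key : ∀ q : Fin 3, q + 1 = 2 → q = 1 := by decide
            have hq1 : q = 1 := key q h3
            obtain ⟨t, ht⟩ := ih.1 (by rw [hq1])
            exact ⟨t, by rw [← ht]; simp⟩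

theorem cls_of_valid (w : List Bool) (h : Valid w) : ∃ q, cls w = some q := by
  induction w using List.reverseRecOn with
  | nil => exact ⟨0, rfl⟩
  | append_singleton v d ih =>
    have hv : Valid v := fun h' => h (h'.trans (List.prefix_append v [d]).isInfix)
    obtain ⟨q, hq⟩ := ih hv
    rw [cls_snoc, hq]
    cases d with
    | false => exact ⟨0, rfl⟩
    | true =>
      by_cases hq2 : q = 2
      · exfalso
        rw [hq2] at hq
        obtain ⟨t, ht⟩ := (cls_suffix v).2 hq
        apply h
        refine ⟨t, [], ?_⟩
        rw [← ht]
        simp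
      · exact ⟨q + 1, by simp [stp, hq2]⟩

theorem cls_of_not_valid (w : List Bool) (h : ¬ Valid w) : cls w = none := by
  unfold Valid at h
  push Not at h
  obtain ⟨u, v, hw⟩ := h
  rw [← hw, cls_append, cls_append]
  have : ∀ x : Option (Fin 3), [true, true, true].foldl stp x = none := by decide
  rw [this, foldl_none]

theorem valid_of_cls (w : List Bool) (q : Fin 3) (h : cls w = some q) : Valid w := by
  by_contra hc
  rw [cls_of_not_valid w hc] at h
  exact absurd h (by simp)

end Pool.Agent.H74.TR
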