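import Pool.Agent.H74.TR.Und
import Pool.Agent.H74.TR.Aut

namespace Pool.Agent.H74.TR

section cls

variable {r : ℕ → Fin 3} (hr : IsFixedPoint r)

theorem len_succ_of (j : ℕ) (a : Fin 3) (ha : a ≠ 2) : len (j + 1) a = len j 0 + len j (a + 1) := by
  fin_cases a
  · simp [len]
  · simp [len]
  · exact absurd rfl ha

theorem len_zero_le (j : ℕ) (a : Fin 3) : len j 0 ≤ len (j + 1) a := by
  fin_cases a <;> simp [len]

include hr in
theorem block_eq (p : ℕ) : ∀ b b' y, r b = r b' → y < len p (r b) →
    r (S r p b + y) = r (S r p b' + y) := by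
  induction p with
  | zero =>
    intro b b' y h hy
    simp only [len, Nat.lt_one_iff] at hy
    subst hy
    simpa [S_zero] using h
  | succ p ih =>
    intro b b' y h hy
    rw [← S_P hr, ← S_P hr]
    rcases Nat.lt_or_ge y (W p) with h1 | h1
    · apply ih
      · rw [r_P hr, r_P hr]
      · rw [r_P hr, (len_zero p).1]; exact h1
    · have hne : r b ≠ 2 := by
        intro hc
        rw [hc] at hy
        have : len (p + 1) 2 = W p := (len_zero p).2.2
        omega
      have hl := len_succ_of p (r b) hne
      rw [hl, (len_zero p).1] at hy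
      have e1 : S r p (P r b) + y = S r p (P r b + 1) + (y - W p) := by
        rw [S_P hr, S_step hr p b 1 (le_refl 1)]; omega
      have e2 : S r p (P r b') + y = S r p (P r b' + 1) + (y - W p) := by
        rw [S_P hr, S_step hr p b' 1 (le_refl 1)]; omega
      rw [e1, e2]
      apply ih
      · rw [r_P1 hr, r_P1 hr, h]
      · rw [r_P1 hr]; omega

/-- length of the common prefix of all positions at level `p` -/
def Z (p : ℕ) : ℕ := ∑ i ∈ Finset.range p, W i

include hr in
theorem prefix_eq (p : ℕ) : ∀ a y, y < Z p → r (S r p a + y) = r y := by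
  induction p with
  | zero => intro a y hy; simp [Z] at hy
  | succ p ih =>
    intro a y hy
    have hZ : Z (p + 1) = Z p + W p := by simp [Z, Finset.sum_range_succ]
    rw [hZ] at hy
    rw [← S_P hr]
    rcases Nat.lt_or_ge y (W p) with h1 | h1
    · have := block_eq hr p (P r a) 0 y (by rw [r_P hr, hr.1])
        (by rw [r_P hr, (len_zero p).1]; exact h1)
      rw [this]
      congr 1
      show 0 + y = y
      omega
    · have e1 : S r p (P r a) + y = S r p (P r a + 1) + (y - W p) := by
        rw [S_P hr, S_step hr p a 1 (le_refl 1)]; omega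
      have e2 : y = S r p 1 + (y - W p) := by
        have : S r p 1 = 0 + len p (r 0) := rfl
        rw [this, hr.1, (len_zero p).1]; omega
      rw [e1, ih _ _ (by omega)]
      conv_rhs => rw [e2]
      rw [ih _ _ (by omega)]

theorem W_mono {a b : ℕ} (h : a ≤ b) : W a ≤ W b := by
  have key : ∀ k, W k ≤ W (k + 1) := by
    intro k
    match k with
    | 0 => decide
    | 1 => decide
    | (k + 2) =>
      have := W_rec k
      show W (k + 2) ≤ W (k + 3)
      omega
  induction b with
  | zero =>
    have : a = 0 := by omega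
    rw [this]
  | succ b ih =>
    rcases Nat.lt_or_ge a (b + 1) with h1 | h1
    · exact (ih (by omega)).trans (key b)
    · have : a = b + 1 := by omega
      rw [this]

theorem Z_ge (p : ℕ) : W (p + 4) + W p ≤ Z (p + 4) := by
  have : Z (p + 4) = Z p + W p + W (p + 1) + W (p + 2) + W (p + 3) := by
    simp [Z, Finset.sum_range_succ]
  have h2 := W_rec (p + 1)
  have e1 : W (p + 1 + 3) = W (p + 4) := rfl
  have e2 : W (p + 1 + 2) = W (p + 3) := rfl
  have e3 : W (p + 1 + 1) = W (p + 2) := rfl
  omega

include hr in
theorem und_empty (c k m j : ℕ) (hk : c ≤ W k) (h : k + 4 ≤ m + j) (n n' t : ℕ)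
    (hl : low r 0 m n = low r 0 m n') (ht : t < len j (r n)) :
    r (S r j n + t + c) = r (S r j n' + t + c) := by
  have hdig := low_inj hr m n n' hl
  have hlow := low_congr (r := r) j m n n' hdig
  have b1 := blkno_S hr j n t ht
  have hN := S_low hr 0 (m + j) (S r j n + t)
  rw [S_zero, Nat.zero_add, blkno_add, b1] at hN
  have hlt := low_lt_W hr (m + j) (S r j n + t)
  have s1 := S_low hr j m n
  have s2 := S_low hr j m n'
  have hjm : j + m = m + j := Nat.add_comm j m
  rw [hjm] at s1 s2
  have hy : low r j m n + t < W (m + j) := by omega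
  obtain ⟨p, hp⟩ : ∃ p, m + j = p + 4 := ⟨m + j - 4, by omega⟩
  have hZ := Z_ge p
  have hW : W k ≤ W p := W_mono (by omega)
  rw [← hp] at hZ
  have e1 : S r j n + t + c = S r (m + j) (blkno r m n) + (low r j m n + t + c) := by
    rw [s1]; ring
  have e2 : S r j n' + t + c = S r (m + j) (blkno r m n') + (low r j m n + t + c) := by
    rw [s2, hlow]; ring
  rw [e1, e2, prefix_eq hr _ _ _ (by omega), prefix_eq hr _ _ _ (by omega)]

/-- the behaviour of a position -/
def cl (r : ℕ → Fin 3) (c n : ℕ) : Fin 3 × (ℕ → ℕ → Option (Fin 3)) :=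
  (r n, fun j t => if t < len j (r n) then some (r (S r j n + t + c)) else none)

theorem cl_eq_iff (c n n' : ℕ) : cl r c n = cl r c n' ↔ r n = r n' ∧
    ∀ j t, t < len j (r n) → r (S r j n + t + c) = r (S r j n' + t + c) := by
  constructor
  · intro h
    have h1 : r n = r n' := congrArg Prod.fst h
    refine ⟨h1, fun j t ht => ?_⟩
    have h2 := congrFun (congrFun (congrArg Prod.snd h) j) t
    simp only [cl] at h2
    rw [if_pos ht, if_pos (by rw [← h1]; exact ht)] at h2
    exact Option.some.inj h2
  · rintro ⟨h1, h2⟩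
    refine Prod.ext h1 ?_
    funext j t
    simp only [cl]
    by_cases ht : t < len j (r n)
    · rw [if_pos ht, if_pos (by rw [← h1]; exact ht), h2 j t ht]
    · rw [if_neg ht, if_neg (by rw [← h1]; exact ht)]

include hr in
theorem cl_step (c n n' d : ℕ) (hd : d ≤ 1) (h : cl r c n = cl r c n') (h2 : d = 1 → r n ≠ 2) :
    cl r c (P r n + d) = cl r c (P r n' + d) := by
  rw [cl_eq_iff] at h ⊢
  obtain ⟨h1, h3⟩ := h
  rcases Nat.eq_zero_or_pos d with h0 | h0
  · subst h0
    rw [Nat.add_zero, Nat.add_zero, r_P hr, r_P hr]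
    refine ⟨rfl, fun j t ht => ?_⟩
    rw [S_P hr, S_P hr]
    exact h3 (j + 1) t (lt_of_lt_of_le ht (len_zero_le j _))
  · have hd1 : d = 1 := by omega
    subst hd1
    rw [r_P1 hr, r_P1 hr, h1]
    refine ⟨rfl, fun j t ht => ?_⟩
    rw [S_step hr j n 1 (le_refl 1), S_step hr j n' 1 (le_refl 1)]
    have hlt : W j + t < len (j + 1) (r n) := by
      rw [len_succ_of j (r n) (h2 rfl), (len_zero j).1, h1]; omega
    have := h3 (j + 1) (W j + t) hlt
    rw [Nat.one_mul]
    rw [← Nat.add_assoc, ← Nat.add_assoc] at this
    exact this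

/-- The automaton of a class map. -/
noncomputable def clAut {X : Type} (r : ℕ → Fin 3) (c : ℕ) (K : ℕ → X) : DFAO (Set.range K) where
  start := ⟨K 0, 0, rfl⟩
  step := fun q d => if d = true ∧ r q.2.choose = 2 then none else
    some ⟨K (P r q.2.choose + (if d then 1 else 0)), _, rfl⟩
  out := fun q => r (q.2.choose + c)

theorem clAut_step {X : Type} (c : ℕ) (K : ℕ → X) (hK1 : ∀ n n', K n = K n' → r n = r n')
    (hK2 : ∀ n n' d, d ≤ 1 → K n = K n' → (d = 1 → r n ≠ 2) → K (P r n + d) = K (P r n' + d))
    (i : ℕ) (d : Bool) : (clAut r c K).step ⟨K i, i, rfl⟩ d =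
      if d = true ∧ r i = 2 then none else
        some ⟨K (P r i + (if d then 1 else 0)), _, rfl⟩ := by
  have hex : ∃ j, K j = K i := ⟨i, rfl⟩
  have hch : K (Exists.choose hex) = K i := Exists.choose_spec hex
  have e : r (Exists.choose hex) = r i := hK1 _ _ hch
  show (if d = true ∧ r (Exists.choose hex) = 2 then none else
    some (⟨K (P r (Exists.choose hex) + (if d then 1 else 0)), _, rfl⟩ : Set.range K)) = _
  rw [e]
  by_cases hc : d = true ∧ r i = 2
  · rw [if_pos hc, if_pos hc]
  · rw [if_neg hc, if_neg hc]
    congr 1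
    apply Subtype.ext
    show K (P r (Exists.choose hex) + _) = _
    apply hK2 _ _ _ (by split <;> omega) hch
    intro h1 h2
    apply hc
    cases d
    · simp at h1
    · exact ⟨rfl, by rw [← e]; exact h2⟩

include hr in
theorem clAut_run {X : Type} (c : ℕ) (K : ℕ → X) (hK1 : ∀ n n', K n = K n' → r n = r n')
    (hK2 : ∀ n n' d, d ≤ 1 → K n = K n' → (d = 1 → r n ≠ 2) → K (P r n + d) = K (P r n' + d))
    (w : List Bool) : (clAut r c K).run (clAut r c K).start w =
      (cls w).map (fun _ => ⟨K (val w), _, rfl⟩) := by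
  induction w using List.reverseRecOn with
  | nil => rfl
  | append_singleton v d ih =>
    rw [run_append, ih, cls_snoc]
    cases hv : cls v with
    | none => rfl
    | some q =>
      obtain ⟨h1, h2⟩ := main_val hr v q hv
      have hval : val (v ++ [d]) = P r (val v) + (if d then 1 else 0) := by
        rw [val_eq, valS_append]
        have := h1 1
        rw [S_one] at this
        rw [this]
        cases d <;> simp [valS, W]
      show ((clAut r c K).step ⟨K (val v), _, rfl⟩ d).bind _ = _
      rw [clAut_step c K hK1 hK2, h2]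
      cases d with
      | false =>
        simp only [Bool.false_eq_true, false_and, if_false, stp, Option.map_some, Nat.add_zero]
        rw [hval]
        rfl
      | true =>
        by_cases hq : q = 2
        · simp [stp, hq]
        · simp only [true_and, if_true, hq, if_false, stp, Option.map_some]
          rw [hval]
          rfl

include hr in
/-- Finite class maps give automata. -/
theorem dfao_of_classes {X : Type} (c N : ℕ) (K : ℕ → X)
    (hK1 : ∀ n n', K n = K n' → r n = r n')
    (hK2 : ∀ n n' d, d ≤ 1 → K n = K n' → (d = 1 → r n ≠ 2) → K (P r n + d) = K (P r n' + d))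
    (hK3 : ∀ n n', K n = K n' → r (n + c) = r (n' + c)) (hfin : (Set.range K).Finite)
    (hN : (Set.range K).ncard ≤ N) : ∃ n ≤ N, HasDFAO (fun i => r (i + c)) n := by
  classical
  have hf : Finite (Set.range K) := hfin
  obtain ⟨n, ⟨e⟩⟩ := hf.exists_equiv_fin
  refine ⟨n, ?_, ?_⟩
  · have h2 : (Set.range K).ncard = n := by
      rw [← Nat.card_coe_set_eq, Nat.card_congr e]
      simp
    omega
  · have hrun := clAut_run hr c K hK1 hK2
    have h1 : (clAut r c K).IsTribonacci := by
      refine ⟨?_, ?_⟩
      · have := clAut_step (r := r) c K hK1 hK2 0 false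
        simp only [Bool.false_eq_true, false_and, if_false] at this
        show (clAut r c K).step ⟨K 0, 0, rfl⟩ false = _
        rw [this]
        congr 1
      · intro w hw
        rw [hrun, cls_of_not_valid w hw]
        rfl
    have h2 : (clAut r c K).Generates (fun i => r (i + c)) := by
      intro w hw
      obtain ⟨q, hq⟩ := cls_of_valid w hw
      refine ⟨⟨K (val w), _, rfl⟩, ?_, ?_⟩
      · rw [hrun, hq]
        rfl
      · have hex : ∃ j, K j = K (val w) := ⟨val w, rfl⟩
        have hch : K (Exists.choose hex) = K (val w) := Exists.choose_spec hex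
        exact hK3 _ _ hch
    exact ⟨(clAut r c K).map e, DFAO.map_isTribonacci _ e h1, DFAO.map_generates _ e _ h2⟩

end cls

end Pool.Agent.H74.TR
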