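import Pool.Agent.H74.TR.Cls

namespace Pool.Agent.H74.TR

section cnt

variable {r : ℕ → Fin 3} (hr : IsFixedPoint r)

/-- undetermined suffixes of length `m` -/
def Um (r : ℕ → Fin 3) (c m : ℕ) : Set ℕ :=
  {l | ∃ n n', low r 0 m n = l ∧ low r 0 m n' = l ∧ cl r c n ≠ cl r c n'}

/-- union of the first few sets `Und` -/
def Au (r : ℕ → Fin 3) (c m N : ℕ) : Set ℕ := {l | ∃ j < N, l ∈ Und r c m j}

include hr in
theorem Au_finite (c m N : ℕ) : (Au r c m N).Finite := by
  apply (Set.finite_Iio (W m)).subset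
  rintro l ⟨j, -, n, n', t, hl, -⟩
  rw [← hl]
  exact low_lt_W hr m n

include hr in
theorem Um_finite (c m : ℕ) : (Um r c m).Finite := by
  apply (Set.finite_Iio (W m)).subset
  rintro l ⟨n, n', hl, -⟩
  rw [← hl]
  exact low_lt_W hr m n

include hr in
theorem und_card_real (c m j : ℕ) (hm : 2 ≤ m) :
    ((Und r c m j).ncard : ℝ) ≤ C0 * (7 / 5 : ℝ) ^ m := by
  have h := und_card hr c m j hm
  have h' : (5 : ℝ) ^ m * (Und r c m j).ncard ≤ 7 ^ m * C0 := by exact_mod_cast h
  rw [div_pow, mul_div_assoc', le_div_iff₀ (by positivity)]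
  linarith

include hr in
theorem Au_card (c m : ℕ) (hm : 2 ≤ m) (N : ℕ) :
    ((Au r c m N).ncard : ℝ) ≤ N * (C0 * (7 / 5 : ℝ) ^ m) := by
  induction N with
  | zero =>
    have : Au r c m 0 = ∅ := by
      ext l
      simp [Au]
    rw [this]
    simp
  | succ N ih =>
    have hsub : Au r c m (N + 1) = Au r c m N ∪ Und r c m N := by
      ext l
      simp only [Au, Set.mem_setOf_eq, Set.mem_union]
      constructor
      · rintro ⟨j, hj, h⟩
        rcases Nat.lt_or_ge j N with h1 | h1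
        · exact Or.inl ⟨j, h1, h⟩
        · have : j = N := by omega
          right; rw [← this]; exact h
      · rintro (⟨j, hj, h⟩ | h)
        · exact ⟨j, by omega, h⟩
        · exact ⟨N, by omega, h⟩
    have h1 : ((Au r c m (N + 1)).ncard : ℝ) ≤ (Au r c m N).ncard + (Und r c m N).ncard := by
      rw [hsub]
      exact_mod_cast Set.ncard_union_le _ _
    have h2 := und_card_real hr c m N hm
    push_cast
    linarith

include hr in
theorem Um_sub (c k m : ℕ) (hk : c ≤ W k) (hm : 2 ≤ m) : Um r c m ⊆ Au r c m (k + 4 - m) := by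
  rintro l ⟨n, n', hl, hl', hne⟩
  have hd := low_inj hr m n n' (hl.trans hl'.symm)
  have hlet := letter_eq hr n n' (hd 0 (by omega)) (hd 1 (by omega))
  have h : ∃ j t, t < len j (r n) ∧ r (S r j n + t + c) ≠ r (S r j n' + t + c) := by
    by_contra hc
    push Not at hc
    exact hne ((cl_eq_iff c n n').mpr ⟨hlet, hc⟩)
  obtain ⟨j, t, ht, hr'⟩ := h
  refine ⟨j, ?_, n, n', t, hl, hl', ht, by rw [← hlet]; exact ht, hr'⟩
  by_contra hj
  exact hr' (und_empty hr c k m j hk (by omega) n n' t (hl.trans hl'.symm) ht)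

include hr in
theorem Um_card (c k m : ℕ) (hk : c ≤ W k) (hm : 2 ≤ m) :
    ((Um r c m).ncard : ℝ) ≤ ((k + 4 - m : ℕ) : ℝ) * (C0 * (7 / 5 : ℝ) ^ m) := by
  have h1 : ((Um r c m).ncard : ℝ) ≤ (Au r c m (k + 4 - m)).ncard := by
    exact_mod_cast Set.ncard_le_ncard (Um_sub hr c k m hk hm) (Au_finite hr c m _)
  exact h1.trans (Au_card hr c m hm _)

/-- classes of determined suffixes -/
def Bs (r : ℕ → Fin 3) (c m : ℕ) : Set (Fin 3 × (ℕ → ℕ → Option (Fin 3))) :=
  {y | ∃ n, cl r c n = y ∧ low r 0 m n ∉ Um r c m}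

open Classical in
/-- class of a suffix -/
noncomputable def gs (r : ℕ → Fin 3) (c m l : ℕ) : Fin 3 × (ℕ → ℕ → Option (Fin 3)) :=
  if h : ∃ n, low r 0 m n = l then cl r c h.choose else cl r c 0

theorem gs_eq (c m n : ℕ) (h : low r 0 m n ∉ Um r c m) : gs r c m (low r 0 m n) = cl r c n := by
  unfold gs
  have hex : ∃ n', low r 0 m n' = low r 0 m n := ⟨n, rfl⟩
  rw [dif_pos hex]
  by_contra hc
  exact h ⟨hex.choose, n, hex.choose_spec, rfl, hc⟩

include hr in
theorem Bs_sub (c m : ℕ) : Bs r c m ⊆ gs r c m '' Set.Iio (W m) := by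
  rintro y ⟨n, rfl, hn⟩
  exact ⟨low r 0 m n, low_lt_W hr m n, gs_eq c m n hn⟩

include hr in
theorem Bs_finite (c m : ℕ) : (Bs r c m).Finite :=
  ((Set.finite_Iio (W m)).image _).subset (Bs_sub hr c m)

include hr in
theorem Bs_two (c : ℕ) : (Bs r c 2).ncard ≤ 4 := by
  refine (Set.ncard_le_ncard (Bs_sub hr c 2) ((Set.finite_Iio (W 2)).image _)).trans ?_
  refine (Set.ncard_image_le (Set.finite_Iio (W 2))).trans ?_
  have : (Set.Iio (W 2)) = ((Finset.range (W 2) : Finset ℕ) : Set ℕ) := by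
    ext x; simp
  rw [this, Set.ncard_coe_finset, Finset.card_range]
  decide

include hr in
theorem Bs_succ (c m : ℕ) : (Bs r c (m + 1)).ncard ≤ (Bs r c m).ncard + 2 * (Um r c m).ncard := by
  have hU := Um_finite hr c m
  have hsub : Bs r c (m + 1) ⊆ Bs r c m ∪
      gs r c (m + 1) '' (Um r c m ∪ (fun l => l + W m) '' Um r c m) := by
    rintro y ⟨n, rfl, hn⟩
    by_cases h : low r 0 m n ∈ Um r c m
    · right
      refine ⟨low r 0 (m + 1) n, ?_, gs_eq c (m + 1) n hn⟩
      rw [low_succ, Nat.add_zero]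
      have hd := dgt_le r m n
      rcases Nat.eq_zero_or_pos (dgt r m n) with h0 | h0
      · left
        rw [h0, Nat.zero_mul, Nat.add_zero]
        exact h
      · right
        have : dgt r m n = 1 := by omega
        rw [this, Nat.one_mul]
        exact ⟨_, h, rfl⟩
    · exact Or.inl ⟨n, rfl, h⟩
  have hfin : (Um r c m ∪ (fun l => l + W m) '' Um r c m).Finite := hU.union (hU.image _)
  have h1 := Set.ncard_le_ncard hsub ((Bs_finite hr c m).union (hfin.image _))
  have h2 := Set.ncard_union_le (Bs r c m)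
    (gs r c (m + 1) '' (Um r c m ∪ (fun l => l + W m) '' Um r c m))
  have h3 := Set.ncard_image_le (f := gs r c (m + 1)) hfin
  have h4 := Set.ncard_union_le (Um r c m) ((fun l => l + W m) '' Um r c m)
  have h5 := Set.ncard_image_le (f := fun l => l + W m) hU
  omega

include hr in
theorem Bs_bound (c k : ℕ) (hk : c ≤ W k) (m : ℕ) (hm : 2 ≤ m) :
    ((Bs r c m).ncard : ℝ) ≤ 4 + 2 * C0 * ∑ i ∈ Finset.range m,
      ((k + 4 - i : ℕ) : ℝ) * (7 / 5 : ℝ) ^ i := by
  induction m with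
  | zero => omega
  | succ m ih =>
    rcases Nat.lt_or_ge m 2 with h | h
    · have : m = 1 := by omega
      subst this
      have h1 : ((Bs r c (1 + 1)).ncard : ℝ) ≤ 4 := by exact_mod_cast Bs_two hr c
      have h2 : (0 : ℝ) ≤ 2 * C0 * ∑ i ∈ Finset.range (1 + 1),
          ((k + 4 - i : ℕ) : ℝ) * (7 / 5 : ℝ) ^ i := by positivity
      linarith
    · have h1 := ih h
      have h2 : ((Bs r c (m + 1)).ncard : ℝ) ≤ (Bs r c m).ncard + 2 * (Um r c m).ncard := by
        exact_mod_cast Bs_succ hr c m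
      have h3 := Um_card hr c k m hk h
      rw [Finset.sum_range_succ]
      nlinarith

theorem geom_bound (m : ℕ) : ∑ i ∈ Finset.range m, (7 / 5 : ℝ) ^ i ≤ 5 / 2 * (7 / 5 : ℝ) ^ m := by
  induction m with
  | zero => norm_num
  | succ m ih =>
    rw [Finset.sum_range_succ, pow_succ]
    linarith

theorem sum_bound (M : ℕ) : ∑ i ∈ Finset.range M, ((M - i : ℕ) : ℝ) * (7 / 5 : ℝ) ^ i ≤
    35 / 4 * (7 / 5 : ℝ) ^ M := by
  induction M with
  | zero => norm_num
  | succ M ih =>
    have h : ∑ i ∈ Finset.range (M + 1), ((M + 1 - i : ℕ) : ℝ) * (7 / 5 : ℝ) ^ i =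
        ∑ i ∈ Finset.range M, ((M - i : ℕ) : ℝ) * (7 / 5 : ℝ) ^ i +
        ∑ i ∈ Finset.range (M + 1), (7 / 5 : ℝ) ^ i := by
      rw [Finset.sum_range_succ, Finset.sum_range_succ _ M, ← add_assoc, ← Finset.sum_add_distrib]
      congr 1
      · apply Finset.sum_congr rfl
        intro i hi
        have : M + 1 - i = (M - i) + 1 := by
          have := Finset.mem_range.mp hi
          omega
        rw [this]
        push_cast
        ring
      · have : M + 1 - M = 1 := by omega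
        rw [this]; simp
    have h2 := geom_bound (M + 1)
    rw [h]
    rw [pow_succ] at h2 ⊢
    linarith

include hr in
theorem range_cl (c k : ℕ) (hk : c ≤ W k) : Set.range (cl r c) = Bs r c (k + 4) := by
  have hemp : Um r c (k + 4) = ∅ := by
    have h := Um_sub hr c k (k + 4) hk (by omega)
    have : Au r c (k + 4) (k + 4 - (k + 4)) = ∅ := by
      ext l
      simp [Au]
    rw [this] at h
    exact Set.subset_eq_empty h rfl
  ext y
  constructor
  · rintro ⟨n, rfl⟩
    exact ⟨n, rfl, by rw [hemp]; simp⟩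
  · rintro ⟨n, rfl, -⟩
    exact ⟨n, rfl⟩

include hr in
theorem classes_bound (c k : ℕ) (hk : c ≤ W k) :
    ((Set.range (cl r c)).ncard : ℝ) ≤ (4 + 18 * C0) * (7 / 5 : ℝ) ^ (k + 4) := by
  rw [range_cl hr c k hk]
  have h1 := Bs_bound hr c k hk (k + 4) (by omega)
  have h2 := sum_bound (k + 4)
  have h3 : (1 : ℝ) ≤ (7 / 5 : ℝ) ^ (k + 4) := one_le_pow₀ (by norm_num)
  have h4 : (0 : ℝ) ≤ C0 := Nat.cast_nonneg _
  have h5 : 2 * (C0 : ℝ) * ∑ i ∈ Finset.range (k + 4), ((k + 4 - i : ℕ) : ℝ) * (7 / 5 : ℝ) ^ i ≤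
      2 * C0 * (35 / 4 * (7 / 5 : ℝ) ^ (k + 4)) := mul_le_mul_of_nonneg_left h2 (by positivity)
  have h6 : (0 : ℝ) ≤ C0 * (7 / 5 : ℝ) ^ (k + 4) := by positivity
  nlinarith

include hr in
theorem upper2 (c k : ℕ) (hk : c ≤ W k) : ∃ n : ℕ, HasDFAO (fun i => r (i + c)) n ∧
    (n : ℝ) ≤ (4 + 18 * C0) * (7 / 5 : ℝ) ^ (k + 4) := by
  have hfin : (Set.range (cl r c)).Finite := by
    rw [range_cl hr c k hk]
    exact Bs_finite hr c _
  obtain ⟨n, hn, h⟩ := dfao_of_classes hr c _ (cl r c)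
    (fun n n' h => congrArg Prod.fst h)
    (fun n n' d hd h h2 => cl_step hr c n n' d hd h h2)
    (fun n n' h => by
      have := ((cl_eq_iff c n n').mp h).2 0 0 (by simp [len])
      simpa [S_zero] using this)
    hfin (le_refl _)
  refine ⟨n, h, ?_⟩
  have h1 : (n : ℝ) ≤ (Set.range (cl r c)).ncard := by exact_mod_cast hn
  exact h1.trans (classes_bound hr c k hk)

end cnt

end Pool.Agent.H74.TR
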