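import Pool.Agent.H74.TR.Lower

namespace Pool.Agent.H74.TR

/-- the possible difference vectors of an addition -/
def Rset : List (ℤ × ℤ × ℤ) := [
  (-1, 0, 1),
  (-1, 1, -1),
  (-1, 1, 0),
  (-1, 1, 1),
  (-1, 1, 2),
  (-1, 2, 0),
  (-1, 2, 1),
  (-1, 2, 2),
  (0, -1, -1),
  (0, -1, 0),
  (0, 0, -1),
  (0, 0, 0),
  (0, 0, 1),
  (0, 1, -1),
  (0, 1, 0),
  (0, 1, 1),
  (0, 1, 2),
  (0, 2, 0),
  (0, 2, 1),
  (0, 2, 2),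
  (1, -2, -1),
  (1, -1, -1),
  (1, -1, 0),
  (1, 0, -1),
  (1, 0, 0),
  (1, 0, 1),
  (1, 1, -1),
  (1, 1, 0),
  (1, 1, 1),
  (2, -1, -1),
  (2, -1, 0),
  (2, 0, -1)]

/-- weights of the nonzero differences of two additions -/
def wt : List ((ℤ × ℤ × ℤ) × ℕ) := [
  ((-3, 3, 2), 5214),
  ((-3, 3, 3), 10253),
  ((-2, 1, 2), 2270),
  ((-2, 1, 3), 5367),
  ((-2, 2, 0), 1631),
  ((-2, 2, 1), 4271),
  ((-2, 2, 2), 8193),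
  ((-2, 2, 3), 11747),
  ((-2, 3, 0), 9110),
  ((-2, 3, 1), 10159),
  ((-2, 3, 2), 9582),
  ((-2, 3, 3), 7400),
  ((-2, 4, 1), 7513),
  ((-2, 4, 2), 3659),
  ((-2, 4, 3), 1020),
  ((-1, -1, 2), 1423),
  ((-1, 0, 1), 1145),
  ((-1, 0, 2), 5119),
  ((-1, 0, 3), 11174),
  ((-1, 1, -1), 1988),
  ((-1, 1, 0), 2227),
  ((-1, 1, 1), 3103),
  ((-1, 1, 2), 5974),
  ((-1, 1, 3), 7296),
  ((-1, 2, -1), 7023),
  ((-1, 2, 0), 4439),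
  ((-1, 2, 1), 2779),
  ((-1, 2, 2), 2279),
  ((-1, 2, 3), 1142),
  ((-1, 3, 0), 2220),
  ((-1, 3, 1), 821),
  ((0, -2, 1), 1594),
  ((0, -1, -1), 6),
  ((0, -1, 0), 3),
  ((0, -1, 1), 3186),
  ((0, -1, 2), 7509),
  ((0, 0, -3), 1589),
  ((0, 0, -2), 3174),
  ((0, 0, -1), 1598),
  ((0, 0, 1), 1598),
  ((0, 0, 2), 3174),
  ((0, 0, 3), 1589),
  ((0, 1, -2), 7509),
  ((0, 1, -1), 3186),
  ((0, 1, 0), 3),
  ((0, 1, 1), 6),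
  ((0, 2, -1), 1594),
  ((1, -3, -1), 821),
  ((1, -3, 0), 2220),
  ((1, -2, -3), 1142),
  ((1, -2, -2), 2279),
  ((1, -2, -1), 2779),
  ((1, -2, 0), 4439),
  ((1, -2, 1), 7023),
  ((1, -1, -3), 7296),
  ((1, -1, -2), 5974),
  ((1, -1, -1), 3103),
  ((1, -1, 0), 2227),
  ((1, -1, 1), 1988),
  ((1, 0, -3), 11174),
  ((1, 0, -2), 5119),
  ((1, 0, -1), 1145),
  ((1, 1, -2), 1423),
  ((2, -4, -3), 1020),
  ((2, -4, -2), 3659),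
  ((2, -4, -1), 7513),
  ((2, -3, -3), 7400),
  ((2, -3, -2), 9582),
  ((2, -3, -1), 10159),
  ((2, -3, 0), 9110),
  ((2, -2, -3), 11747),
  ((2, -2, -2), 8193),
  ((2, -2, -1), 4271),
  ((2, -2, 0), 1631),
  ((2, -1, -3), 5367),
  ((2, -1, -2), 2270),
  ((3, -3, -3), 10253),
  ((3, -3, -2), 5214)]

end Pool.Agent.H74.TR
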