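import Mathlib

/-!
Definitions for `MP_99b159_lc` (state complexity of shifts of the Tribonacci word).
-/

namespace Pool.Agent.H74.TR

/-- The Tribonacci numbers `1, 2, 4, 7, 13, 24, ...` (`W k = W (k-1) + W (k-2) + W (k-3)`). -/
def W : ℕ → ℕ
  | 0 => 1
  | 1 => 2
  | 2 => 4
  | (k + 3) => W (k + 2) + W (k + 1) + W k

/-- The value of a binary word read most significant digit first: the digit that has
`k` digits to its right contributes `W k` when it is `1` (= `true`). -/
def val : List Bool → ℕ
  | [] => 0
  | d :: w => (if d then W w.length else 0) + val w

/-- A binary word is valid when it has no factor `111`. -/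
def Valid (w : List Bool) : Prop := ¬ [true, true, true] <:+: w

/-- The morphism `0 ↦ 01`, `1 ↦ 02`, `2 ↦ 0`. -/
def phi (a : Fin 3) : List (Fin 3) := if a = 0 then [0, 1] else if a = 1 then [0, 2] else [0]

/-- The morphism extended to finite words. -/
def phiWord (u : List (Fin 3)) : List (Fin 3) := u.flatMap phi

/-- `r` is the fixed point of the morphism starting with `0`: for every `n` the image of the
prefix of length `n` of `r` is again a prefix of `r`. -/
def IsFixedPoint (r : ℕ → Fin 3) : Prop :=
  r 0 = 0 ∧ ∀ n : ℕ, phiWord ((List.range n).map r) =
    (List.range (phiWord ((List.range n).map r)).length).map r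

/-- The Tribonacci word: `trib i` is the letter number `i` of the `i`-th iterate of the
morphism on the letter `0`. -/
def trib (i : ℕ) : Fin 3 := (phiWord^[i] [0]).getD i 0

/-- A deterministic automaton with output over the input alphabet `{0,1}` (`false`, `true`),
with partial transition function `step` and state set `Q`. -/
structure DFAO (Q : Type) where
  start : Q
  step : Q → Bool → Option Q
  out : Q → Fin 3

/-- The state reached from `q` by reading a word (if all the transitions are defined). -/
def DFAO.run {Q : Type} (M : DFAO Q) : Q → List Bool → Option Q
  | q, [] => some q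
  | q, d :: w => (M.step q d).bind (fun q' => M.run q' w)

/-- The requirements on a Tribonacci DFAO: the initial state has a self-loop on `0`, and no
word with a factor `111` can be read. -/
def DFAO.IsTribonacci {Q : Type} (M : DFAO Q) : Prop :=
  M.step M.start false = some M.start ∧ ∀ w : List Bool, ¬ Valid w → M.run M.start w = none

/-- `M` generates `h`: reading any valid representation of `i` leads to a state with
output `h i`. -/
def DFAO.Generates {Q : Type} (M : DFAO Q) (h : ℕ → Fin 3) : Prop :=
  ∀ w : List Bool, Valid w → ∃ q : Q, M.run M.start w = some q ∧ M.out q = h (val w)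

/-- `h` is generated by a Tribonacci DFAO with exactly `n` states. -/
def HasDFAO (h : ℕ → Fin 3) (n : ℕ) : Prop :=
  ∃ M : DFAO (Fin n), M.IsTribonacci ∧ M.Generates h

/-- The state complexity: the least number of states of a Tribonacci DFAO generating `h`. -/
noncomputable def stateComplexity (h : ℕ → Fin 3) : ℕ := sInf {n : ℕ | HasDFAO h n}

/-- The state complexity of the shift by `c` of the Tribonacci word. -/
noncomputable def s (c : ℕ) : ℕ := stateComplexity (fun i => trib (i + c))

end Pool.Agent.H74.TR
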