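import Pool.Agent.H74.TR.Num
import Pool.Agent.H74.TR.Data

namespace Pool.Agent.H74.TR

def stepV (D : ℤ × ℤ × ℤ) (e : ℤ) : ℤ × ℤ × ℤ := (D.1 + D.2.1 + e, D.1 + D.2.2, D.1)

def ev (D : ℤ × ℤ × ℤ) (q : ℕ) : ℤ := D.1 * V (q + 2) + D.2.1 * V (q + 1) + D.2.2 * V q

theorem V_cast (q : ℕ) : (V (q + 3) : ℤ) = V (q + 2) + V (q + 1) + V q := by
  rw [V_rec]; push_cast; ring

theorem ev_step (D : ℤ × ℤ × ℤ) (e : ℤ) (q : ℕ) :
    ev (stepV D e) q = ev D (q + 1) + e * V (q + 2) := by
  simp only [ev, stepV]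
  have := V_cast q
  rw [show q + 1 + 2 = q + 3 by ring, this, show q + 1 + 1 = q + 2 by ring]
  ring

theorem ev_rec (D : ℤ × ℤ × ℤ) (q : ℕ) : ev D (q + 3) = ev D (q + 2) + ev D (q + 1) + ev D q := by
  simp only [ev]
  have h0 := V_cast q
  have h1 := V_cast (q + 1)
  have h2 := V_cast (q + 2)
  rw [show q + 3 + 2 = q + 2 + 3 by ring, h2, show q + 3 + 1 = q + 1 + 3 by ring, h1, h0]
  have e1 : V (q + 1 + 1) = V (q + 2) := rfl
  rw [e1]
  ring

theorem ev_sub (D E : ℤ × ℤ × ℤ) (q : ℕ) : ev (D - E) q = ev D q - ev E q := by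
  simp only [ev, Prod.fst_sub, Prod.snd_sub]
  ring

theorem ev_add (D E : ℤ × ℤ × ℤ) (q : ℕ) : ev (D + E) q = ev D q + ev E q := by
  simp only [ev, Prod.fst_add, Prod.snd_add]
  ring

def pos3 (E : ℤ × ℤ × ℤ) : Prop := 0 ≤ ev E 2 ∧ 0 ≤ ev E 3 ∧ 0 ≤ ev E 4

instance (E : ℤ × ℤ × ℤ) : Decidable (pos3 E) := by unfold pos3; infer_instance

theorem pos3_all (E : ℤ × ℤ × ℤ) (h : pos3 E) (q : ℕ) : 0 ≤ ev E (2 + q) := by
  induction q using Nat.strong_induction_on with
  | _ q ih =>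
    match q with
    | 0 => exact h.1
    | 1 => exact h.2.1
    | 2 => exact h.2.2
    | (q + 3) =>
      have h1 := ih q (by omega)
      have h2 := ih (q + 1) (by omega)
      have h3 := ih (q + 2) (by omega)
      have := ev_rec E (2 + q)
      rw [show 2 + (q + 3) = 2 + q + 3 by ring, this]
      rw [show 2 + q + 2 = 2 + (q + 2) by ring, show 2 + q + 1 = 2 + (q + 1) by ring]
      omega

def exHi (a : ℤ) (E : ℤ × ℤ × ℤ) : Prop := pos3 (E.1 - a, E.2.1, E.2.2)
def exLo (E : ℤ × ℤ × ℤ) : Prop := pos3 (-E.1 - 1, -E.2.1, -E.2.2)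

instance (a : ℤ) (E : ℤ × ℤ × ℤ) : Decidable (exHi a E) := by unfold exHi; infer_instance
instance (E : ℤ × ℤ × ℤ) : Decidable (exLo E) := by unfold exLo; infer_instance

theorem exHi_ev (a : ℤ) (E : ℤ × ℤ × ℤ) (h : exHi a E) (q : ℕ) (hq : 2 ≤ q) :
    a * V (q + 2) ≤ ev E q := by
  have := pos3_all _ h (q - 2)
  rw [show 2 + (q - 2) = q by omega] at this
  simp only [ev] at *
  nlinarith

theorem exLo_ev (E : ℤ × ℤ × ℤ) (h : exLo E) (q : ℕ) (hq : 2 ≤ q) :
    ev E q ≤ - V (q + 2) := by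
  have := pos3_all _ h (q - 2)
  rw [show 2 + (q - 2) = q by omega] at this
  simp only [ev] at *
  nlinarith

/-- lookup of a weight -/
def hof : List ((ℤ × ℤ × ℤ) × ℕ) → (ℤ × ℤ × ℤ) → ℕ
  | [], _ => 0
  | p :: l, D => if D = p.1 then p.2 else hof l D

theorem hof_mem (l : List ((ℤ × ℤ × ℤ) × ℕ)) (D : ℤ × ℤ × ℤ) (h : 0 < hof l D) :
    (D, hof l D) ∈ l := by
  induction l with
  | nil => simp [hof] at h
  | cons p l ih =>
    unfold hof at h ⊢
    by_cases hD : D = p.1
    · rw [if_pos hD]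
      rw [hD]
      exact List.mem_cons_self
    · rw [if_neg hD] at h ⊢
      exact List.mem_cons_of_mem _ (ih h)

def hw (D : ℤ × ℤ × ℤ) : ℕ := hof wt D

theorem R_zero : ((0, 0, 0) : ℤ × ℤ × ℤ) ∈ Rset := by decide +kernel

theorem R_closed : ∀ D ∈ Rset, ∀ e ∈ ([-2, -1, 0, 1] : List ℤ), stepV D e ∈ Rset ∨
    exHi 2 (stepV D e) ∨ exLo (stepV D e) := by decide +kernel

theorem R_diff : ∀ a ∈ Rset, ∀ b ∈ Rset, a = b ∨ 0 < hw (a - b) ∨ exHi 1 (a - b) ∨
    exLo (a - b) := by decide +kernel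

theorem wt_ineq : ∀ p ∈ wt, 5 * (2 * hw (stepV p.1 0) + hw (stepV p.1 1) + hw (stepV p.1 (-1))) ≤
    7 * p.2 := by decide +kernel

/-- the vector of the length of the image of a letter -/
def lv (a : Fin 3) : ℤ × ℤ × ℤ := if a = 0 then (1, 0, 0) else if a = 1 then (0, 1, 1) else (0, 1, 0)

theorem ev_lv (a : Fin 3) (q : ℕ) : ev (lv a) q = len q a := by
  have h0 := (len_zero q).1
  have h1 := (len_zero q).2.1
  have hV0 := V_W q
  have hV1 := V_W (q + 1)
  have hr := V_rec q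
  fin_cases a
  · show ev (lv 0) q = len q 0
    simp only [lv, ev, if_true]
    rw [h0, hV0]; simp
  · show ev (lv 1) q = len q 1
    have : lv 1 = (0, 1, 1) := rfl
    rw [this]
    simp only [ev]
    have e : V (q + 1 + 2) = V (q + 3) := rfl
    have : len q 1 = V (q + 1) + V q := by omega
    rw [this]; push_cast; ring
  · show ev (lv 2) q = len q 2
    have : lv 2 = (0, 1, 0) := rfl
    rw [this]
    simp only [ev]
    cases q with
    | zero => simp [V, len]
    | succ q =>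
      have h2 := (len_zero q).2.2
      have := V_W q
      rw [h2, ← this]; simp

/-- vector of a position -/
def vec (r : ℕ → Fin 3) : ℕ → ℤ × ℤ × ℤ
  | 0 => 0
  | n + 1 => vec r n + lv (r n)

theorem ev_vec (r : ℕ → Fin 3) (q n : ℕ) : ev (vec r n) q = S r q n := by
  induction n with
  | zero => simp [vec, ev, S]
  | succ n ih =>
    rw [vec, ev_add, ih, ev_lv]
    simp [S]

theorem stepV_add (D E : ℤ × ℤ × ℤ) (d e : ℤ) : stepV (D + E) (d + e) = stepV D d + stepV E e := by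
  simp only [stepV, Prod.fst_add, Prod.snd_add, Prod.mk_add_mk]
  refine Prod.ext ?_ (Prod.ext ?_ ?_) <;> simp <;> ring

theorem stepV_sub (D E : ℤ × ℤ × ℤ) (d e : ℤ) : stepV (D - E) (d - e) = stepV D d - stepV E e := by
  simp only [stepV, Prod.fst_sub, Prod.snd_sub, Prod.mk_sub_mk]
  refine Prod.ext ?_ (Prod.ext ?_ ?_) <;> simp <;> ring

theorem vec_P {r : ℕ → Fin 3} (hr : IsFixedPoint r) (n d : ℕ) (hd : d ≤ 1) :
    vec r (P r n + d) = stepV (vec r n) d := by
  have key : ∀ n, vec r (P r n) = stepV (vec r n) 0 := by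
    intro n
    induction n with
    | zero => rw [P_zero]; rfl
    | succ n ih =>
      rw [P_succ']
      have hs : stepV (vec r (n + 1)) 0 = stepV (vec r n) 0 + stepV (lv (r n)) 0 := by
        have := stepV_add (vec r n) (lv (r n)) 0 0
        rw [add_zero] at this
        exact this
      rw [hs, ← ih]
      have h0 := r_P hr n
      have h1 := r_P1 hr n
      by_cases h2 : r n = 2
      · rw [if_pos h2]
        have : vec r (P r n + 1) = vec r (P r n) + lv (r (P r n)) := rfl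
        rw [this, h0, h2]
        congr 1
      · rw [if_neg h2]
        have : vec r (P r n + 2) = vec r (P r n) + lv (r (P r n)) + lv (r (P r n + 1)) := rfl
        rw [this, h0, h1, add_assoc]
        congr 1
        revert h2
        generalize r n = a
        revert a
        decide
  rcases Nat.eq_zero_or_pos d with h | h
  · subst h
    simpa using key n
  · have : d = 1 := by omega
    subst this
    have e : vec r (P r n + 1) = vec r (P r n) + lv (r (P r n)) := rfl
    rw [e, key, r_P hr]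
    simp only [stepV, lv, if_true, Prod.mk_add_mk]
    simp

end Pool.Agent.H74.TR
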