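import Pool.Agent.H74.TR.Defs

namespace Pool.Agent.H74.TR

theorem phiWord_append (a b : List (Fin 3)) : phiWord (a ++ b) = phiWord a ++ phiWord b := by
  simp [phiWord]

theorem phiWord_prefix {a b : List (Fin 3)} (h : a <+: b) : phiWord a <+: phiWord b := by
  obtain ⟨t, rfl⟩ := h
  rw [phiWord_append]
  exact List.prefix_append _ _

theorem phiWord_length (a : List (Fin 3)) : a.length ≤ (phiWord a).length := by
  induction a with
  | nil => simp [phiWord]
  | cons x a ih =>
    have h1 : phiWord (x :: a) = phi x ++ phiWord a := by simp [phiWord]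
    have h2 : ∀ x : Fin 3, 1 ≤ (phi x).length := by decide
    rw [h1, List.length_append, List.length_cons]
    have := h2 x
    omega

theorem u_succ (n : ℕ) : phiWord^[n + 1] [0] = phiWord (phiWord^[n] [0]) :=
  Function.iterate_succ_apply' _ _ _

theorem u_prefix_succ (n : ℕ) : phiWord^[n] [0] <+: phiWord^[n + 1] [0] := by
  induction n with
  | zero => exact ⟨[1], rfl⟩
  | succ n ih =>
    rw [u_succ, u_succ (n + 1)]
    exact phiWord_prefix ih

theorem u_prefix {n m : ℕ} (h : n ≤ m) : phiWord^[n] [0] <+: phiWord^[m] [0] := by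
  induction m with
  | zero =>
    have : n = 0 := by omega
    subst this
    exact List.prefix_rfl
  | succ m ih =>
    rcases Nat.lt_or_ge n (m + 1) with h1 | h1
    · exact (ih (by omega)).trans (u_prefix_succ m)
    · have : n = m + 1 := by omega
      subst this
      exact List.prefix_rfl

theorem u_length (n : ℕ) : n < (phiWord^[n] [0]).length ∧ ∃ t, phiWord^[n] [0] = 0 :: t := by
  induction n with
  | zero => exact ⟨by simp, [], rfl⟩
  | succ n ih =>
    obtain ⟨h1, t, ht⟩ := ih
    rw [u_succ, ht]
    have e : phiWord (0 :: t) = 0 :: 1 :: phiWord t := by simp [phiWord, phi]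
    rw [e]
    refine ⟨?_, _, rfl⟩
    rw [ht] at h1
    have := phiWord_length t
    simp only [List.length_cons] at *
    omega

theorem prefix_getElem? {a b : List (Fin 3)} (h : a <+: b) (i : ℕ) (hi : i < a.length) :
    b[i]? = a[i]? := by
  obtain ⟨t, rfl⟩ := h
  rw [List.getElem?_append_left hi]

theorem u_get (m i : ℕ) (hi : i < (phiWord^[m] [0]).length) :
    (phiWord^[m] [0])[i]? = some (trib i) := by
  have h1 : (phiWord^[i] [0])[i]? = some (trib i) := by
    have h := (u_length i).1
    rw [List.getElem?_eq_getElem h]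
    unfold trib
    rw [List.getD_eq_getElem _ _ h]
  rcases Nat.le_total m i with h | h
  · rw [← prefix_getElem? (u_prefix h) i hi, h1]
  · rw [prefix_getElem? (u_prefix h) i (u_length i).1, h1]

theorem map_trib (m n : ℕ) (h : n ≤ (phiWord^[m] [0]).length) :
    (List.range n).map trib = (phiWord^[m] [0]).take n := by
  apply List.ext_getElem?
  intro i
  rcases Nat.lt_or_ge i n with hi | hi
  · rw [List.getElem?_map, List.getElem?_range hi, List.getElem?_take_of_lt hi,
      u_get m i (by omega)]
    rfl
  · rw [List.getElem?_eq_none (by simpa using hi), List.getElem?_eq_none (by simp; omega)]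

theorem trib_fixed : IsFixedPoint trib := by
  refine ⟨rfl, fun n => ?_⟩
  have h1 := (u_length n).1
  rw [map_trib n n (by omega)]
  have h2 : phiWord ((phiWord^[n] [0]).take n) <+: phiWord^[n + 1] [0] := by
    rw [u_succ]
    exact phiWord_prefix (List.take_prefix _ _)
  have h3 := h2.length_le
  rw [map_trib (n + 1) _ h3]
  exact (List.prefix_iff_eq_take.mp h2)

end Pool.Agent.H74.TR
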