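import Pool.Agent.H74.TR.Aut
import Pool.Agent.H74.TR.Fix

namespace Pool.Agent.H74.TR

theorem W_bound (K : ℕ) : W (3 * K + 1) ≤ 2 * 8 ^ K ∧ W (3 * K + 2) ≤ 4 * 8 ^ K ∧
    W (3 * K + 3) ≤ 8 * 8 ^ K := by
  induction K with
  | zero => decide
  | succ K ih =>
    obtain ⟨h1, h2, h3⟩ := ih
    have e1 : W (3 * (K + 1) + 1) = W (3 * K + 3) + W (3 * K + 2) + W (3 * K + 1) := rfl
    have e2 : W (3 * (K + 1) + 2) = W (3 * (K + 1) + 1) + W (3 * K + 3) + W (3 * K + 2) := rfl
    have e3 : W (3 * (K + 1) + 3) =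
      W (3 * (K + 1) + 2) + W (3 * (K + 1) + 1) + W (3 * K + 3) := rfl
    have e4 : 8 ^ (K + 1) = 8 * 8 ^ K := by rw [pow_succ]; ring
    refine ⟨?_, ?_, ?_⟩ <;> omega

theorem W_ge (k : ℕ) : k ≤ W k := by
  induction k using Nat.strong_induction_on with
  | _ k ih =>
    match k with
    | 0 => exact Nat.zero_le _
    | 1 => decide
    | 2 => decide
    | (k + 3) =>
      have h1 := ih (k + 2) (by omega)
      have h2 := ih (k + 1) (by omega)
      have h3 : 1 ≤ W k := by
        have : ∀ k, 1 ≤ W k := by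
          intro k
          induction k using Nat.strong_induction_on with
          | _ k ih =>
            match k with
            | 0 => decide
            | 1 => decide
            | 2 => decide
            | (k + 3) => have := ih k (by omega); rw [W_rec]; omega
        exact this k
      rw [W_rec]
      rcases Nat.eq_zero_or_pos k with h | h
      · subst h; decide
      · omega

theorem s_spec (c : ℕ) : HasDFAO (fun i => trib (i + c)) (s c) := by
  obtain ⟨n, -, hn⟩ := upper trib_fixed c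
  exact Nat.sInf_mem (s := {n : ℕ | HasDFAO (fun i => trib (i + c)) n}) ⟨n, hn⟩

theorem s_le (c : ℕ) : s c ≤ 2 * c + 3 := by
  obtain ⟨n, h, hn⟩ := upper trib_fixed c
  exact (Nat.sInf_le (s := {n : ℕ | HasDFAO (fun i => trib (i + c)) n}) hn).trans h

theorem s_lower (K : ℕ) : 2 ^ K ≤ s (W (3 * K + 1)) :=
  lower trib_fixed K _ (s_spec _)

theorem cube (K : ℕ) : W (3 * K + 1) ≤ 2 * s (W (3 * K + 1)) ^ 3 := by
  have h1 := (W_bound K).1
  have h2 := Nat.pow_le_pow_left (s_lower K) 3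
  have h3 : (2 ^ K) ^ 3 = 8 ^ K := by
    rw [← pow_mul, mul_comm, pow_mul]; norm_num
  rw [h3] at h2
  omega

theorem polylog (C d N : ℕ) : ∃ c : ℕ, N ≤ c ∧ C * (Nat.log 2 c) ^ d < s c := by
  have h := tendsto_pow_const_div_const_pow_of_one_lt d (r := (2 : ℝ)) one_lt_two
  have h2 : ∀ᶠ K : ℕ in Filter.atTop, (K : ℝ) ^ d / 2 ^ K < 1 / ((C : ℝ) * 4 ^ d + 1) :=
    h.eventually (gt_mem_nhds (by positivity))
  obtain ⟨K, hK1, hK2⟩ := (h2.and (Filter.eventually_ge_atTop (N + 1))).exists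
  refine ⟨W (3 * K + 1), ?_, lt_of_lt_of_le ?_ (s_lower K)⟩
  · have := W_ge (3 * K + 1)
    omega
  · have hlog : Nat.log 2 (W (3 * K + 1)) ≤ 4 * K := by
      have h1 := (W_bound K).1
      have h3 : 2 * 8 ^ K = 2 ^ (3 * K + 1) := by
        rw [pow_succ, pow_mul]; norm_num; ring
      rw [h3] at h1
      have h4 := Nat.log_mono_right (b := 2) h1
      rw [Nat.log_pow (by norm_num)] at h4
      omega
    have hpos : (0 : ℝ) < (C : ℝ) * 4 ^ d + 1 := by positivity
    have h5 : (K : ℝ) ^ d * ((C : ℝ) * 4 ^ d + 1) < 2 ^ K := by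
      rw [div_lt_div_iff₀ (by positivity) hpos] at hK1
      linarith
    have h6 : (C : ℝ) * (4 * K) ^ d < 2 ^ K := by
      have h7 : (C : ℝ) * (4 * K) ^ d = (K : ℝ) ^ d * ((C : ℝ) * 4 ^ d) := by
        rw [mul_pow]; ring
      rw [h7]
      have h8 : (0 : ℝ) ≤ (K : ℝ) ^ d := by positivity
      nlinarith
    have h9 : C * (4 * K) ^ d < 2 ^ K := by exact_mod_cast h6
    exact lt_of_le_of_lt (Nat.mul_le_mul_left C (Nat.pow_le_pow_left hlog d)) h9

end Pool.Agent.H74.TR
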