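import Pool.Agent.H74.TR.Count
import Pool.Agent.H74.TR.Main

namespace Pool.Agent.H74.TR

theorem s_le_real (c k : ℕ) (hk : c ≤ W k) :
    (s c : ℝ) ≤ (4 + 18 * C0) * (7 / 5 : ℝ) ^ (k + 4) := by
  obtain ⟨n, hn, h⟩ := upper2 trib_fixed c k hk
  have h1 : s c ≤ n := Nat.sInf_le (s := {n : ℕ | HasDFAO (fun i => trib (i + c)) n}) hn
  have h2 : (s c : ℝ) ≤ n := by exact_mod_cast h1
  exact h2.trans h

theorem W_ge_pow (k : ℕ) : (367 / 200 : ℝ) ^ k ≤ W k := by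
  induction k using Nat.strong_induction_on with
  | _ k ih =>
    match k with
    | 0 => norm_num [W]
    | 1 => norm_num [W]
    | 2 => norm_num [W]
    | (k + 3) =>
      have h1 := ih k (by omega)
      have h2 := ih (k + 1) (by omega)
      have h3 := ih (k + 2) (by omega)
      have e : (W (k + 3) : ℝ) = W (k + 2) + W (k + 1) + W k := by
        rw [W_rec]; push_cast; ring
      rw [e]
      have h4 : (367 / 200 : ℝ) ^ (k + 3) ≤ (367 / 200 : ℝ) ^ (k + 2) + (367 / 200 : ℝ) ^ (k + 1) +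
          (367 / 200 : ℝ) ^ k := by
        have hp : (0 : ℝ) < (367 / 200 : ℝ) ^ k := by positivity
        rw [pow_add, pow_add, pow_add]
        nlinarith
      linarith

theorem pow_le (c : ℕ) (hc : 1 ≤ c) : ∃ k, c ≤ W k ∧
    ((7 / 5 : ℝ) ^ k) ^ 9 ≤ (7 / 5 : ℝ) ^ 9 * (c : ℝ) ^ 5 := by
  classical
  have hex : ∃ k, c ≤ W k := ⟨c, W_ge c⟩
  refine ⟨Nat.find hex, Nat.find_spec hex, ?_⟩
  have hc' : (1 : ℝ) ≤ c := by exact_mod_cast hc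
  rcases Nat.eq_zero_or_pos (Nat.find hex) with h0 | h0
  · rw [h0, pow_zero, one_pow]
    have h1 : (1 : ℝ) ≤ (c : ℝ) ^ 5 := one_le_pow₀ hc'
    have h2 : (1 : ℝ) ≤ (7 / 5 : ℝ) ^ 9 := one_le_pow₀ (by norm_num)
    nlinarith
  · obtain ⟨k, hk⟩ : ∃ k, Nat.find hex = k + 1 := ⟨_, (Nat.succ_pred_eq_of_pos h0).symm⟩
    rw [hk]
    have hlt : W k < c := by
      have := Nat.find_min hex (m := k) (by omega)
      omega
    have hlt' : (W k : ℝ) ≤ c := by exact_mod_cast hlt.le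
    have h1 := W_ge_pow k
    have h2 : ((367 / 200 : ℝ) ^ k) ^ 5 ≤ (c : ℝ) ^ 5 :=
      pow_le_pow_left₀ (by positivity) (h1.trans hlt') 5
    have h3 : ((7 / 5 : ℝ) ^ k) ^ 9 ≤ ((367 / 200 : ℝ) ^ k) ^ 5 := by
      rw [← pow_mul, ← pow_mul, mul_comm k 9, mul_comm k 5, pow_mul, pow_mul]
      exact pow_le_pow_left₀ (by positivity) (by norm_num) k
    rw [pow_succ (7 / 5 : ℝ) k, mul_pow]
    have h4 : (0 : ℝ) < (7 / 5 : ℝ) ^ 9 := by positivity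
    have h5 := mul_le_mul_of_nonneg_left (h3.trans h2) h4.le
    linarith

/-- Upper bound `s c = O(c^(5/9))`. -/
theorem s_upper : ∃ C : ℕ, ∀ c : ℕ, 1 ≤ c → s c ^ 9 ≤ C * c ^ 5 := by
  let A : ℝ := ((4 + 18 * C0) * (7 / 5 : ℝ) ^ 4) ^ 9 * (7 / 5 : ℝ) ^ 9
  refine ⟨⌈A⌉₊, fun c hc => ?_⟩
  obtain ⟨k, hk, hp⟩ := pow_le c hc
  have h1 := s_le_real c k hk
  have h2 : ((s c : ℝ)) ^ 9 ≤ ((4 + 18 * C0) * (7 / 5 : ℝ) ^ (k + 4)) ^ 9 :=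
    pow_le_pow_left₀ (Nat.cast_nonneg _) h1 9
  have h3 : ((4 + 18 * (C0 : ℝ)) * (7 / 5 : ℝ) ^ (k + 4)) ^ 9 =
      ((4 + 18 * C0) * (7 / 5 : ℝ) ^ 4) ^ 9 * ((7 / 5 : ℝ) ^ k) ^ 9 := by
    rw [pow_add]; ring
  have h4 : (0 : ℝ) ≤ ((4 + 18 * (C0 : ℝ)) * (7 / 5 : ℝ) ^ 4) ^ 9 := by positivity
  have h5 : ((s c : ℝ)) ^ 9 ≤ A * (c : ℝ) ^ 5 := by
    rw [h3] at h2
    have := mul_le_mul_of_nonneg_left hp h4
    calc ((s c : ℝ)) ^ 9 ≤ _ := h2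
      _ ≤ _ := this
      _ = A * (c : ℝ) ^ 5 := by simp only [A]; ring
  have h6 : A * (c : ℝ) ^ 5 ≤ (⌈A⌉₊ : ℝ) * (c : ℝ) ^ 5 :=
    mul_le_mul_of_nonneg_right (Nat.le_ceil A) (by positivity)
  have h7 : ((s c : ℝ)) ^ 9 ≤ (⌈A⌉₊ : ℝ) * (c : ℝ) ^ 5 := h5.trans h6
  exact_mod_cast h7

end Pool.Agent.H74.TR
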