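import Pool.Agent.H74.TR.Cls
import Pool.Agent.H74.TR.Main

namespace Pool.Agent.H74.TR

section lg

variable {r : ℕ → Fin 3} (hr : IsFixedPoint r)

/-- behaviour at the levels `≥ i` -/
def Gl (r : ℕ → Fin 3) (c i n : ℕ) : ℕ → ℕ → Option (Fin 3) := fun l t =>
  if i ≤ l ∧ t < len l (r n) then some (r (S r l n + t + c)) else none

/-- forgetting level `i` -/
def fg (i : ℕ) (f : ℕ → ℕ → Option (Fin 3)) : ℕ → ℕ → Option (Fin 3) :=
  fun l t => if i + 1 ≤ l then f l t else none

theorem Gl_succ (c i n : ℕ) : Gl r c (i + 1) n = fg i (Gl r c i n) := by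
  funext l t
  simp only [Gl, fg]
  by_cases h : i + 1 ≤ l
  · have h' : i ≤ l := by omega
    simp [h, h']
  · simp [h]

include hr in
theorem P_S (k : ℕ) : ∀ n, P r (S r k n) = S r (k + 1) n := by
  induction k with
  | zero => intro n; rw [S_zero, S_one]
  | succ k ih => intro n; rw [← S_P hr k n, ih, S_P hr]

include hr in
theorem S_one' (k : ℕ) : S r k 1 = W k := by
  have : S r k 1 = 0 + len k (r 0) := rfl
  rw [this, hr.1, (len_zero k).1, Nat.zero_add]

theorem W_pos (k : ℕ) : 1 ≤ W k := by
  have h := W_mono (Nat.zero_le k)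
  have : W 0 = 1 := rfl
  omega

include hr in
theorem letter_W (k : ℕ) : r (W (k + 1) - 1) = r (W k - 1) + 1 := by
  apply prev_letter hr
  have h1 := W_pos k
  have h2 := W_pos (k + 1)
  rw [Nat.sub_add_cancel h1, Nat.sub_add_cancel h2, ← S_one' hr k, P_S hr, S_one' hr]

include hr in
theorem Qk (c k : ℕ) (h1 : W k ≤ c) (h2 : c < W (k + 1)) :
    ∃ N N', low r 0 k N = low r 0 k N' ∧ r (N + c) ≠ r (N' + c) := by
  have hr1 : r 1 = 1 := by
    have := r_P1 hr 0
    rw [P_zero, hr.1] at this
    simpa using this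
  have hl0 := (len_zero k).1
  have hl1 := (len_zero k).2.1
  have hl2 := len_le hr k 1
  let y := W (k + 1) - 1 - c
  have hy0 : y < len k (r 0) := by rw [hr.1, hl0]; omega
  have hy1 : y < len k (r 1) := by rw [hr1]; omega
  refine ⟨S r k 0 + y, S r k 1 + y, ?_, ?_⟩
  · rw [low_S hr k 0 y hy0, low_S hr k 1 y hy1]
  · have e1 : S r k 0 + y + c = W (k + 1) - 1 := by
      have : S r k 0 = 0 := rfl
      omega
    have e2 : S r k 1 + y + c = S r (k + 1) 1 + (W k - 1) := by
      rw [S_one' hr, S_one' hr]
      have := W_pos k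
      omega
    have hZ : W k - 1 < Z (k + 1) := by
      have : Z (k + 1) = Z k + W k := by simp [Z, Finset.sum_range_succ]
      have := W_pos k
      omega
    rw [e1, e2, prefix_eq hr _ _ _ hZ, letter_W hr]
    generalize r (W k - 1) = a
    revert a
    decide

include hr in
theorem Q_false (c k p : ℕ) (hk : c ≤ W k) (hp : k + 4 ≤ p) (N N' : ℕ)
    (h : low r 0 p N = low r 0 p N') : r (N + c) = r (N' + c) := by
  have := und_empty hr c k p 0 hk (by omega) N N' 0 h (by simp [len])
  simpa [S_zero] using this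

include hr in
theorem exists_pstar (c k : ℕ) (h1 : W k ≤ c) (h2 : c < W (k + 1)) : ∃ p, k ≤ p ∧
    (∃ N N', low r 0 p N = low r 0 p N' ∧ r (N + c) ≠ r (N' + c)) ∧
    ∀ q, p < q → ∀ N N', low r 0 q N = low r 0 q N' → r (N + c) = r (N' + c) := by
  classical
  let Q : ℕ → Prop := fun p => ∃ N N', low r 0 p N = low r 0 p N' ∧ r (N + c) ≠ r (N' + c)
  have hQ : Q k := Qk hr c k h1 h2
  refine ⟨Nat.findGreatest Q (k + 5), Nat.le_findGreatest (by omega) hQ,
    Nat.findGreatest_spec (P := Q) (n := k + 5) (by omega) hQ, ?_⟩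
  intro q hq N N' hl
  by_contra hne
  rcases Nat.lt_or_ge (k + 5) q with h | h
  · exact hne (Q_false hr c (k + 1) q h2.le (by omega) N N' hl)
  · exact Nat.findGreatest_is_greatest hq h ⟨N, N', hl, hne⟩

include hr in
theorem Gl_letter (c i n n' : ℕ) (h : Gl r c i n = Gl r c i n') : r n = r n' := by
  have hdom : ∀ t, t < len (i + 2) (r n) ↔ t < len (i + 2) (r n') := by
    intro t
    have := congrFun (congrFun h (i + 2)) t
    simp only [Gl] at this
    constructor
    · intro ht
      by_contra hc
      rw [if_pos ⟨by omega, ht⟩, if_neg (by tauto)] at this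
      exact absurd this (by simp)
    · intro ht
      by_contra hc
      rw [if_neg (by tauto), if_pos ⟨by omega, ht⟩] at this
      exact absurd this (by simp)
  have hlen : len (i + 2) (r n) = len (i + 2) (r n') := by
    rcases Nat.lt_trichotomy (len (i + 2) (r n)) (len (i + 2) (r n')) with h1 | h1 | h1
    · have := (hdom (len (i + 2) (r n))).mpr h1; omega
    · exact h1
    · have := (hdom (len (i + 2) (r n'))).mp h1; omega
  have a0 := (len_zero (i + 2)).1
  have a1 := (len_zero (i + 2)).2.1
  have a2 : len (i + 2) 2 = W (i + 1) := (len_zero (i + 1)).2.2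
  have w3 := W_rec i
  have e3 : W (i + 2 + 1) = W (i + 3) := rfl
  have w2 : W (i + 1) + W i < W (i + 2) := by
    match i with
    | 0 => decide
    | (i + 1) =>
      have := W_rec i
      have := W_pos i
      have e1 : W (i + 1 + 2) = W (i + 3) := rfl
      have e2 : W (i + 1 + 1) = W (i + 2) := rfl
      omega
  have w0 := W_pos i
  revert hlen
  generalize r n = a
  generalize r n' = b
  intro hlen
  fin_cases a <;> fin_cases b <;> first | rfl | (exfalso; simp at hlen; omega)

include hr in
theorem Gl_card_ge (c i : ℕ) (hfin : (Set.range (Gl r c i)).Finite) :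
    3 ≤ (Set.range (Gl r c i)).ncard := by
  classical
  have h0 : r 0 = 0 := hr.1
  have h1 : r 1 = 1 := by
    have := r_P1 hr 0
    rw [P_zero, hr.1] at this
    simpa using this
  have hP1 : P r 1 = 2 := by
    have := P_succ' r 0
    rw [P_zero, h0] at this
    simpa using this
  have h3 : r 3 = 2 := by
    have := r_P1 hr 1
    rw [hP1, h1] at this
    simpa using this
  let T3 : Finset ℕ := {0, 1, 3}
  have hinj : Set.InjOn (Gl r c i) (T3 : Set ℕ) := by
    intro a ha b hb hab
    have hl := Gl_letter hr c i a b hab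
    simp only [T3, Finset.coe_insert, Finset.coe_singleton, Set.mem_insert_iff,
      Set.mem_singleton_iff] at ha hb
    rcases ha with rfl | rfl | rfl <;> rcases hb with rfl | rfl | rfl <;>
      first | rfl | (exfalso; simp only [h0, h1, h3] at hl; exact absurd hl (by decide))
  have hcard : (Gl r c i '' (T3 : Set ℕ)).ncard = 3 := by
    rw [Set.InjOn.ncard_image hinj, Set.ncard_coe_finset]
    rfl
  have hle := Set.ncard_le_ncard (Set.image_subset_range (Gl r c i) (T3 : Set ℕ)) hfin
  rw [hcard] at hle
  exact hle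

include hr in
theorem Gl_drop (c p j : ℕ) (hj : j + 2 ≤ p)
    (hQ : ∃ N N', low r 0 p N = low r 0 p N' ∧ r (N + c) ≠ r (N' + c))
    (hmax : ∀ q, p < q → ∀ N N', low r 0 q N = low r 0 q N' → r (N + c) = r (N' + c))
    (hfin : (Set.range (Gl r c j)).Finite) :
    (Set.range (Gl r c (j + 1))).Finite ∧
    (Set.range (Gl r c (j + 1))).ncard + 1 ≤ (Set.range (Gl r c j)).ncard := by
  have himg : Set.range (Gl r c (j + 1)) = fg j '' Set.range (Gl r c j) := by
    rw [← Set.range_comp]
    congr 1
    funext n
    exact Gl_succ c j n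
  obtain ⟨N, N', hlow, hne⟩ := hQ
  have hd := low_inj hr p N N' hlow
  let n := blkno r j N
  let n' := blkno r j N'
  have hlow2 : low r 0 (p - j) n = low r 0 (p - j) n' := by
    apply low_congr
    intro i hi
    have := hd (i + j) (by omega)
    rw [dgt_add, dgt_add] at this
    exact this
  have hd2 := low_inj hr (p - j) n n' hlow2
  have hlet : r n = r n' := letter_eq hr n n' (hd2 0 (by omega)) (hd2 1 (by omega))
  have hdiff : Gl r c j n ≠ Gl r c j n' := by
    intro h
    have e1 := S_low hr 0 j N
    have e2 := S_low hr 0 j N'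
    rw [S_zero, Nat.zero_add] at e1 e2
    have hlj : low r 0 j N = low r 0 j N' := low_congr 0 j N N' (fun i hi => hd i (by omega))
    have ht : low r 0 j N < len j (r n) := low_lt hr j N
    have := congrFun (congrFun h j) (low r 0 j N)
    simp only [Gl] at this
    rw [if_pos ⟨le_refl j, ht⟩, if_pos ⟨le_refl j, by rw [← hlet]; exact ht⟩] at this
    have h3 := Option.some.inj this
    have e1' : S r j n + low r 0 j N = N := e1.symm
    have e2' : S r j n' + low r 0 j N = N' := by rw [hlj]; exact e2.symm
    rw [e1', e2'] at h3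
    exact hne h3
  have hsame : Gl r c (j + 1) n = Gl r c (j + 1) n' := by
    funext l t
    simp only [Gl, ← hlet]
    by_cases h : j + 1 ≤ l ∧ t < len l (r n)
    · rw [if_pos h, if_pos h]
      congr 1
      have b1 := blkno_S hr l n t h.2
      have b2 := blkno_S hr l n' t (by rw [← hlet]; exact h.2)
      apply hmax (p - j + l) (by omega)
      apply low_congr
      intro i hi
      rcases Nat.lt_or_ge i l with h4 | h4
      · have g1 := low_S hr l n t h.2
        have g2 := low_S hr l n' t (by rw [← hlet]; exact h.2)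
        exact low_inj hr l _ _ (g1.trans g2.symm) i h4
      · obtain ⟨x, rfl⟩ : ∃ x, i = x + l := ⟨i - l, by omega⟩
        rw [dgt_add, dgt_add, b1, b2]
        exact hd2 x (by omega)
    · rw [if_neg h, if_neg h]
  refine ⟨by rw [himg]; exact hfin.image _, ?_⟩
  have hle := Set.ncard_image_le (f := fg j) hfin
  have hneq : (fg j '' Set.range (Gl r c j)).ncard ≠ (Set.range (Gl r c j)).ncard := by
    intro heq
    have hinj := Set.injOn_of_ncard_image_eq heq hfin
    apply hdiff
    apply hinj ⟨n, rfl⟩ ⟨n', rfl⟩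
    rw [← Gl_succ, ← Gl_succ, hsame]
  rw [himg]
  omega

include hr in
theorem Gl_chain (c p : ℕ)
    (hQ : ∃ N N', low r 0 p N = low r 0 p N' ∧ r (N + c) ≠ r (N' + c))
    (hmax : ∀ q, p < q → ∀ N N', low r 0 q N = low r 0 q N' → r (N + c) = r (N' + c))
    (hfin : (Set.range (Gl r c 0)).Finite) (j : ℕ) (hj : j + 1 ≤ p) :
    (Set.range (Gl r c j)).Finite ∧
    (Set.range (Gl r c j)).ncard + j ≤ (Set.range (Gl r c 0)).ncard := by
  induction j with
  | zero => exact ⟨hfin, le_refl _⟩
  | succ j ih =>
    obtain ⟨h1, h2⟩ := ih (by omega)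
    obtain ⟨h3, h4⟩ := Gl_drop hr c p j (by omega) hQ hmax h1
    exact ⟨h3, by omega⟩

include hr in
theorem classes_lower (c k : ℕ) (h1 : W k ≤ c) (h2 : c < W (k + 1))
    (hfin : (Set.range (Gl r c 0)).Finite) : k + 2 ≤ (Set.range (Gl r c 0)).ncard := by
  obtain ⟨p, hp, hQ, hmax⟩ := exists_pstar hr c k h1 h2
  rcases Nat.eq_zero_or_pos p with h0 | h0
  · have := Gl_card_ge hr c 0 hfin
    omega
  · obtain ⟨h3, h4⟩ := Gl_chain hr c p hQ hmax hfin (p - 1) (by omega)
    have := Gl_card_ge hr c (p - 1) h3
    omega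

include hr in
theorem val_snoc (v : List Bool) (d : Bool) (q : Fin 3) (h : cls v = some q) :
    val (v ++ [d]) = P r (val v) + (if d then 1 else 0) := by
  obtain ⟨h1, h2⟩ := main_val hr v q h
  rw [val_eq, valS_append]
  have := h1 1
  rw [S_one] at this
  rw [this]
  cases d <;> simp [valS, W]

include hr in
/-- a valid word for every number -/
theorem exists_word (m : ℕ) : ∃ w, cls w = some (r m) ∧ val w = m := by
  induction m using Nat.strong_induction_on with
  | _ m ih =>
    rcases Nat.eq_zero_or_pos m with h0 | h0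
    · subst h0
      exact ⟨[], by rw [hr.1]; rfl, rfl⟩
    · obtain ⟨m', rfl⟩ : ∃ m', m = m' + 1 := ⟨_, (Nat.succ_pred_eq_of_pos h0).symm⟩
      have hlt := pi_lt hr m'
      obtain ⟨w, hw1, hw2⟩ := ih (pi r (m' + 1)) (by omega)
      obtain ⟨e1, e2, e3⟩ := pi_spec r (m' + 1)
      have hlet := letter hr (m' + 1)
      by_cases hd : dg r (m' + 1) = 0
      · refine ⟨w ++ [false], ?_, ?_⟩
        · rw [cls_snoc, hw1, hlet, if_pos hd]
          rfl
        · rw [val_snoc hr w false _ hw1, hw2]
          rw [hd] at e1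
          simpa using e1.symm
      · have hd1 : dg r (m' + 1) = 1 := by omega
        refine ⟨w ++ [true], ?_, ?_⟩
        · rw [cls_snoc, hw1, hlet, if_neg hd]
          simp [stp, e3 hd1]
        · rw [val_snoc hr w true _ hw1, hw2]
          rw [hd1] at e1
          simpa using e1.symm

/-- the word of length `l` with value `t` -/
def xw : ℕ → ℕ → List Bool
  | 0, _ => []
  | l + 1, t => if t < W l then false :: xw l t else true :: xw l (t - W l)

include hr in
theorem xw_spec (l : ℕ) : ∀ t a, t < len l a → (∃ q', (xw l t).foldl stp (some a) = some q') ∧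
    val (xw l t) = t ∧ (xw l t).length = l := by
  induction l with
  | zero =>
    intro t a ht
    simp only [len, Nat.lt_one_iff] at ht
    subst ht
    exact ⟨⟨a, rfl⟩, rfl, rfl⟩
  | succ l ih =>
    intro t a ht
    rw [xw]
    by_cases h : t < W l
    · rw [if_pos h]
      obtain ⟨⟨q', hq⟩, h2, h3⟩ := ih t 0 (by rw [(len_zero l).1]; exact h)
      refine ⟨⟨q', ?_⟩, ?_, ?_⟩
      · simpa [stp] using hq
      · simp [val, h2]
      · simp [h3]
    · rw [if_neg h]
      have hne : a ≠ 2 := by
        intro hc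
        rw [hc] at ht
        have : len (l + 1) 2 = W l := (len_zero l).2.2
        omega
      have hl := len_succ_of l a hne
      rw [hl, (len_zero l).1] at ht
      obtain ⟨⟨q', hq⟩, h2, h3⟩ := ih (t - W l) (a + 1) (by omega)
      refine ⟨⟨q', ?_⟩, ?_, ?_⟩
      · simpa [stp, hne] using hq
      · simp [val, h2, h3]; omega
      · simp [h3]

include hr in
theorem dfao_ge (c n : ℕ) (h : HasDFAO (fun i => r (i + c)) n) :
    (Set.range (Gl r c 0)).Finite ∧ (Set.range (Gl r c 0)).ncard ≤ n := by
  classical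
  obtain ⟨M, hT, hG⟩ := h
  choose w hw using exists_word hr
  have hval : ∀ m, Valid (w m) := fun m => valid_of_cls _ _ (hw m).1
  choose q hq using fun m => hG (w m) (hval m)
  have hrun : ∀ m x, M.run M.start (w m ++ x) = M.run (q m) x := by
    intro m x
    rw [run_append, (hq m).1]
    rfl
  have hnone : ∀ u, M.run M.start u = none ↔ cls u = none := by
    intro u
    constructor
    · intro hu
      by_contra hc
      obtain ⟨a, ha⟩ := Option.ne_none_iff_exists'.mp hc
      obtain ⟨Q, hQ, -⟩ := hG u (valid_of_cls _ _ ha)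
      rw [hQ] at hu
      exact absurd hu (by simp)
    · intro hu
      apply hT.2
      intro hv
      obtain ⟨a, ha⟩ := cls_of_valid u hv
      rw [ha] at hu
      exact absurd hu (by simp)
  have key : ∀ m m', q m = q m' → Gl r c 0 m = Gl r c 0 m' := by
    intro m m' hqq
    have hiff : ∀ x, cls (w m ++ x) = none ↔ cls (w m' ++ x) = none := by
      intro x
      rw [← hnone, ← hnone, hrun, hrun, hqq]
    have hlet : r m = r m' := by
      have i1 := hiff [true]
      have i2 := hiff [true, true]
      rw [cls_append, cls_append, (hw m).1, (hw m').1] at i1 i2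
      have fin : ∀ a b : Fin 3, ([true].foldl stp (some a) = none ↔
          [true].foldl stp (some b) = none) → ([true, true].foldl stp (some a) = none ↔
          [true, true].foldl stp (some b) = none) → a = b := by decide
      exact fin _ _ i1 i2
    funext l t
    simp only [Gl, ← hlet]
    by_cases ht : 0 ≤ l ∧ t < len l (r m)
    · rw [if_pos ht, if_pos ht]
      obtain ⟨⟨q', hq'⟩, hv, hlen⟩ := xw_spec hr l t (r m) ht.2
      have c1 : cls (w m ++ xw l t) = some q' := by rw [cls_append, (hw m).1]; exact hq'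
      have c2 : cls (w m' ++ xw l t) = some q' := by
        rw [cls_append, (hw m').1, ← hlet]; exact hq'
      have v1 : val (w m ++ xw l t) = S r l m + t := by
        have := (main_val hr (w m) _ (hw m).1).1 l
        rw [(hw m).2] at this
        rw [val_eq, valS_append, hlen, ← val_eq, hv, this]
        rfl
      have v2 : val (w m' ++ xw l t) = S r l m' + t := by
        have := (main_val hr (w m') _ (hw m').1).1 l
        rw [(hw m').2] at this
        rw [val_eq, valS_append, hlen, ← val_eq, hv, this]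
        rfl
      obtain ⟨Q1, r1, o1⟩ := hG _ (valid_of_cls _ _ c1)
      obtain ⟨Q2, r2, o2⟩ := hG _ (valid_of_cls _ _ c2)
      rw [hrun] at r1 r2
      rw [hqq, r2] at r1
      have hQ : Q2 = Q1 := Option.some.inj r1
      rw [v1] at o1
      rw [v2, hQ] at o2
      congr 1
      have o1' : M.out Q1 = r (S r l m + t + c) := o1
      have o2' : M.out Q1 = r (S r l m' + t + c) := o2
      rw [← o1', ← o2']
    · rw [if_neg ht, if_neg ht]
  let g : Fin n → (ℕ → ℕ → Option (Fin 3)) := fun s =>
    if h : ∃ m, q m = s then Gl r c 0 h.choose else Gl r c 0 0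
  have hg : ∀ m, g (q m) = Gl r c 0 m := by
    intro m
    have hex : ∃ m', q m' = q m := ⟨m, rfl⟩
    simp only [g]
    rw [dif_pos hex]
    exact key _ _ hex.choose_spec
  have hsub : Set.range (Gl r c 0) ⊆ g '' Set.univ := by
    rintro y ⟨m, rfl⟩
    exact ⟨q m, trivial, hg m⟩
  have hfin : (g '' Set.univ).Finite := Set.finite_univ.image g
  refine ⟨hfin.subset hsub, ?_⟩
  have h1 := Set.ncard_le_ncard hsub hfin
  have h2 := Set.ncard_image_le (f := g) (Set.finite_univ)
  have h3 : (Set.univ : Set (Fin n)).ncard = n := by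
    rw [Set.ncard_univ]; simp
  omega

end lg

/-- `k + 2 ≤ s c` whenever `W k ≤ c < W (k+1)`. -/
theorem s_log (c k : ℕ) (h1 : W k ≤ c) (h2 : c < W (k + 1)) : k + 2 ≤ s c := by
  obtain ⟨hfin, hle⟩ := dfao_ge trib_fixed c _ (s_spec c)
  exact (classes_lower trib_fixed c k h1 h2 hfin).trans hle

theorem W_two_pow (k : ℕ) : W k ≤ 2 ^ k := by
  induction k using Nat.strong_induction_on with
  | _ k ih =>
    match k with
    | 0 => decide
    | 1 => decide
    | 2 => decide
    | (k + 3) =>
      have h1 := ih k (by omega)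
      have h2 := ih (k + 1) (by omega)
      have h3 := ih (k + 2) (by omega)
      rw [W_rec]
      rw [pow_succ] at h2
      have e2 : 2 ^ (k + 2) = 2 ^ k * 4 := by rw [pow_add]; norm_num
      have e3 : 2 ^ (k + 3) = 2 ^ k * 8 := by rw [pow_add]; norm_num
      rw [e2] at h3
      rw [e3]
      omega

/-- `2 c < 2 ^ s c` for `c ≥ 1`. -/
theorem s_log2 (c : ℕ) (hc : 1 ≤ c) : 2 * c < 2 ^ s c := by
  classical
  have hex : ∃ k, c < W (k + 1) := ⟨c, by have := W_ge (c + 1); omega⟩
  have hspec := Nat.find_spec hex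
  have hk : W (Nat.find hex) ≤ c := by
    rcases Nat.eq_zero_or_pos (Nat.find hex) with h0 | h0
    · rw [h0]; exact hc
    · have := Nat.find_min hex (m := Nat.find hex - 1) (by omega)
      rw [Nat.sub_add_cancel h0] at this
      omega
  have h := s_log c _ hk hspec
  have h3 := W_two_pow (Nat.find hex + 1)
  have h4 : 2 ^ (Nat.find hex + 2) ≤ 2 ^ s c := Nat.pow_le_pow_right (by norm_num) h
  have h5 : 2 ^ (Nat.find hex + 2) = 2 * 2 ^ (Nat.find hex + 1) := by rw [pow_succ]; ring
  omega

end Pool.Agent.H74.TR
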