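import Pool.Agent.H74.TR.Upper
import Pool.Agent.H74.TR.Lower

namespace Pool.Agent.H74.TR

section num

variable (r : ℕ → Fin 3)

/-- parent of a position -/
noncomputable def pi (n : ℕ) : ℕ := (cover r n).choose

/-- last digit of a position -/
noncomputable def dg (n : ℕ) : ℕ := n - P r (pi r n)

theorem pi_spec (n : ℕ) : n = P r (pi r n) + dg r n ∧ dg r n ≤ 1 ∧ (dg r n = 1 → r (pi r n) ≠ 2) := by
  unfold dg
  rcases (cover r n).choose_spec with h | ⟨h, h2⟩
  · have h' : n = P r (pi r n) := h
    refine ⟨by omega, by omega, by omega⟩
  · have h' : n = P r (pi r n) + 1 := h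
    exact ⟨by omega, by omega, fun _ => h2⟩

theorem P_lt (a b : ℕ) (h : a < b) : P r a + (if r a = 2 then 1 else 2) ≤ P r b := by
  rw [← P_succ']
  induction b with
  | zero => omega
  | succ b ih =>
    rcases Nat.lt_or_ge a b with h1 | h1
    · have := ih h1
      have h2 := P_succ' r b
      have h3 : 0 < (if r b = 2 then 1 else 2) := by split <;> omega
      omega
    · have : a = b := by omega
      subst this
      exact le_refl _

theorem pi_unique (n m d : ℕ) (h : n = P r m + d) (hd : d ≤ 1) (h2 : d = 1 → r m ≠ 2) :
    pi r n = m ∧ dg r n = d := by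
  obtain ⟨e1, e2, e3⟩ := pi_spec r n
  have key : pi r n = m := by
    rcases Nat.lt_trichotomy (pi r n) m with hl | hl | hl
    · exfalso
      have := P_lt r _ _ hl
      by_cases hc : r (pi r n) = 2
      · rw [if_pos hc] at this
        have : dg r n ≠ 1 := fun hh => e3 hh hc
        omega
      · rw [if_neg hc] at this
        omega
    · exact hl
    · exfalso
      have := P_lt r _ _ hl
      by_cases hc : r m = 2
      · rw [if_pos hc] at this
        have : d ≠ 1 := fun hh => h2 hh hc
        omega
      · rw [if_neg hc] at this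
        omega
  refine ⟨key, ?_⟩
  rw [key] at e1
  omega

/-- block number at level `q` -/
noncomputable def blkno (q n : ℕ) : ℕ := (pi r)^[q] n

theorem blkno_zero (n : ℕ) : blkno r 0 n = n := rfl

theorem blkno_succ (q n : ℕ) : blkno r (q + 1) n = pi r (blkno r q n) :=
  Function.iterate_succ_apply' _ _ _

theorem blkno_add (a b n : ℕ) : blkno r (a + b) n = blkno r a (blkno r b n) :=
  Function.iterate_add_apply _ _ _ _

/-- digit number `q` -/
noncomputable def dgt (q n : ℕ) : ℕ := dg r (blkno r q n)

theorem dgt_le (q n : ℕ) : dgt r q n ≤ 1 := (pi_spec r _).2.1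

theorem dgt_add (a b n : ℕ) : dgt r (a + b) n = dgt r a (blkno r b n) := by
  unfold dgt; rw [blkno_add]

theorem blkno_step (q n : ℕ) : blkno r q n = P r (blkno r (q + 1) n) + dgt r q n := by
  rw [blkno_succ]
  exact (pi_spec r _).1

/-- value of the digits below `m`, moved up by `j` -/
noncomputable def low (j m n : ℕ) : ℕ := ∑ i ∈ Finset.range m, dgt r i n * W (i + j)

theorem low_zero (j n : ℕ) : low r j 0 n = 0 := by simp [low]

theorem low_succ (j m n : ℕ) : low r j (m + 1) n = low r j m n + dgt r m n * W (m + j) := by
  simp [low, Finset.sum_range_succ]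

variable {r} (hr : IsFixedPoint r)

include hr

theorem S_step (q x d : ℕ) (hd : d ≤ 1) : S r q (P r x + d) = S r (q + 1) x + d * W q := by
  rcases Nat.eq_zero_or_pos d with h | h
  · subst h
    simp [S_P hr]
  · have : d = 1 := by omega
    subst this
    have : S r q (P r x + 1) = S r q (P r x) + len q (r (P r x)) := rfl
    rw [this, S_P hr, r_P hr, (len_zero q).1, Nat.one_mul]

theorem S_low (j m n : ℕ) : S r j n = S r (j + m) (blkno r m n) + low r j m n := by
  induction m with
  | zero => rw [low_zero, blkno_zero]; rfl
  | succ m ih =>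
    rw [ih, blkno_step r m n, S_step hr _ _ _ (dgt_le r _ _), low_succ, Nat.add_comm m j]
    have : S r (j + (m + 1)) (blkno r (m + 1) n) = S r (j + m + 1) (blkno r (m + 1) n) := rfl
    omega

theorem letter (n : ℕ) : r n = if dg r n = 0 then 0 else r (pi r n) + 1 := by
  obtain ⟨e1, e2, e3⟩ := pi_spec r n
  by_cases h : dg r n = 0
  · rw [if_pos h]
    rw [h, Nat.add_zero] at e1
    rw [e1, r_P hr]
  · rw [if_neg h]
    have : dg r n = 1 := by omega
    rw [this] at e1
    conv_lhs => rw [e1]
    rw [r_P1 hr]

theorem low_lt (m n : ℕ) : low r 0 m n < len m (r (blkno r m n)) := by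
  induction m with
  | zero => rw [low_zero]; simp [len]
  | succ m ih =>
    rw [low_succ, Nat.add_zero]
    obtain ⟨e1, e2, e3⟩ := pi_spec r (blkno r m n)
    have e2' : dgt r m n ≤ 1 := e2
    have hl := letter hr (blkno r m n)
    have hlen : ∀ a : Fin 3, len m 0 ≤ len (m + 1) a := by
      intro a
      fin_cases a <;> simp [len]
    rw [blkno_succ]
    rcases Nat.eq_zero_or_pos (dgt r m n) with h | h
    · rw [h, Nat.zero_mul, Nat.add_zero]
      have h' : dg r (blkno r m n) = 0 := h
      rw [if_pos h'] at hl
      rw [hl] at ih
      exact lt_of_lt_of_le ih (hlen _)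
    · have h1 : dgt r m n = 1 := by omega
      have h1' : dg r (blkno r m n) = 1 := h1
      have hne : ¬ dg r (blkno r m n) = 0 := by omega
      rw [if_neg hne] at hl
      rw [hl] at ih
      rw [h1, Nat.one_mul]
      have h2 := e3 h1'
      have : ∀ a : Fin 3, a ≠ 2 → len (m + 1) a = len m 0 + len m (a + 1) := by
        intro a ha
        fin_cases a
        · simp [len]
        · simp [len]
        · exact absurd rfl ha
      rw [this _ h2, (len_zero m).1]
      omega

theorem len_le (m : ℕ) (a : Fin 3) : len m a ≤ W m := by
  have h0 := (len_zero m).1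
  have h1 := (len_zero m).2.1
  have key : ∀ m, len m 1 ≤ W m ∧ len m 2 ≤ W m := by
    intro m
    induction m using Nat.strong_induction_on with
    | _ m ih =>
      match m with
      | 0 => decide
      | 1 => decide
      | 2 => decide
      | (m + 3) =>
        have a1 := (len_zero (m + 2)).2.2
        have b0 := (len_zero (m + 3)).2.1
        have c0 := W_rec m
        have c1 := W_rec (m + 1)
        have d1 := ih (m + 2) (by omega)
        have e1 : W (m + 3 + 1) = W (m + 1 + 3) := rfl
        have e2 : W (m + 1 + 2) = W (m + 3) := rfl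
        have e3 : W (m + 1 + 1) = W (m + 2) := rfl
        have e4 : len (m + 2 + 1) 2 = len (m + 3) 2 := rfl
        constructor <;> omega
  fin_cases a
  · exact h0.le
  · exact (key m).1
  · exact (key m).2

theorem low_lt_W (m n : ℕ) : low r 0 m n < W m :=
  lt_of_lt_of_le (low_lt hr m n) (len_le hr m _)

theorem low_inj (m n n' : ℕ) (h : low r 0 m n = low r 0 m n') : ∀ i < m, dgt r i n = dgt r i n' := by
  induction m with
  | zero => intro i hi; omega
  | succ m ih =>
    rw [low_succ, low_succ, Nat.add_zero] at h
    have h1 := low_lt_W hr m n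
    have h2 := low_lt_W hr m n'
    have h3 := dgt_le r m n
    have h4 := dgt_le r m n'
    have hd : dgt r m n = dgt r m n' := by
      rcases Nat.eq_zero_or_pos (dgt r m n) with ha | ha <;>
      rcases Nat.eq_zero_or_pos (dgt r m n') with hb | hb
      · rw [ha, hb]
      · have : dgt r m n' = 1 := by omega
        rw [ha, this] at h; omega
      · have : dgt r m n = 1 := by omega
        rw [hb, this] at h; omega
      · omega
    intro i hi
    rcases Nat.lt_or_ge i m with h5 | h5
    · rw [hd] at h
      exact ih (by omega) i h5
    · have : i = m := by omega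
      rw [this, hd]

omit hr in
theorem low_congr (j m n n' : ℕ) (h : ∀ i < m, dgt r i n = dgt r i n') :
    low r j m n = low r j m n' := by
  unfold low
  apply Finset.sum_congr rfl
  intro i hi
  rw [h i (Finset.mem_range.mp hi)]

/-- the block of level `j` containing `S j n + t` -/
theorem blkno_S (j n t : ℕ) (ht : t < len j (r n)) : blkno r j (S r j n + t) = n := by
  induction j generalizing n t with
  | zero =>
    simp only [len, Nat.lt_one_iff] at ht
    subst ht
    rw [Nat.add_zero, S_zero, blkno_zero]
  | succ j ih =>
    rw [blkno_succ]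
    rcases Nat.lt_or_ge t (W j) with h | h
    · have e : S r (j + 1) n + t = S r j (P r n) + t := by rw [S_P hr]
      have h' : t < len j (r (P r n)) := by rw [r_P hr, (len_zero j).1]; exact h
      rw [e, ih _ _ h']
      exact (pi_unique r _ n 0 rfl (by omega) (by omega)).1
    · have hne : r n ≠ 2 := by
        intro hc
        rw [hc] at ht
        have : len (j + 1) 2 = W j := (len_zero j).2.2
        omega
      have hl : len (j + 1) (r n) = len j 0 + len j (r n + 1) := by
        revert hne
        generalize r n = a
        intro ha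
        fin_cases a
        · simp [len]
        · simp [len]
        · exact absurd rfl ha
      rw [hl, (len_zero j).1] at ht
      have e : S r (j + 1) n + t = S r j (P r n + 1) + (t - W j) := by
        rw [S_step hr j n 1 (le_refl 1)]; omega
      have h' : t - W j < len j (r (P r n + 1)) := by rw [r_P1 hr]; omega
      rw [e, ih _ _ h']
      exact (pi_unique r _ n 1 rfl (by omega) (fun _ => hne)).1

theorem low_S (j n t : ℕ) (ht : t < len j (r n)) : low r 0 j (S r j n + t) = t := by
  have h := S_low hr 0 j (S r j n + t)
  rw [S_zero, blkno_S hr j n t ht, Nat.zero_add] at h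
  omega

theorem pi_lt (n : ℕ) : pi r (n + 1) ≤ n := by
  obtain ⟨e1, e2, e3⟩ := pi_spec r (n + 1)
  have hP0 := P_zero r
  rcases Nat.eq_zero_or_pos (pi r (n + 1)) with h | h
  · omega
  · have := P_lt r 0 (pi r (n + 1)) h
    have h0 : r 0 ≠ 2 := by rw [hr.1]; decide
    rw [if_neg h0, P_zero] at this
    -- P m ≥ m + 1
    have hge : ∀ m, 0 < m → m + 1 ≤ P r m := by
      intro m hm
      induction m with
      | zero => omega
      | succ m ih =>
        have hs := P_succ' r m
        rcases Nat.eq_zero_or_pos m with h1 | h1
        · subst h1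
          rw [if_neg h0, P_zero] at hs
          omega
        · have := ih h1
          have h3 : 0 < (if r m = 2 then 1 else 2) := by split <;> omega
          omega
    have := hge _ h
    omega

omit hr in
theorem pi_zero : pi r 0 = 0 :=
  (pi_unique r 0 0 0 (by rw [P_zero]) (by omega) (by omega)).1

theorem blkno_large (q n : ℕ) (h : n ≤ q) : blkno r q n = 0 := by
  have key : ∀ q n, blkno r q n ≤ n - q := by
    intro q n
    induction q with
    | zero => rw [blkno_zero]; omega
    | succ q ih =>
      rw [blkno_succ]
      rcases Nat.eq_zero_or_pos (blkno r q n) with h1 | h1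
      · rw [h1, pi_zero]; omega
      · obtain ⟨x, hx⟩ : ∃ x, blkno r q n = x + 1 := ⟨_, (Nat.succ_pred_eq_of_pos h1).symm⟩
        have := pi_lt hr x
        rw [hx] at ih ⊢
        omega
  have := key q n
  omega

end num

end Pool.Agent.H74.TR
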