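import Pool.Agent.H74.TR.Diff

namespace Pool.Agent.H74.TR

/-- digit strings (most significant first) along paths of nonzero differences -/
noncomputable def T : ℕ → ℤ × ℤ × ℤ → Finset (List ℕ)
  | 0, _ => {[]}
  | m + 1, D =>
    ((if 0 < hw (stepV D 0) then (T m (stepV D 0)).image (fun l => 0 :: l) else ∅) ∪
     (if 0 < hw (stepV D 0) then (T m (stepV D 0)).image (fun l => 1 :: l) else ∅)) ∪
    ((if 0 < hw (stepV D 1) then (T m (stepV D 1)).image (fun l => 1 :: l) else ∅) ∪
     (if 0 < hw (stepV D (-1)) then (T m (stepV D (-1))).image (fun l => 0 :: l) else ∅))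

theorem T_card (m : ℕ) : ∀ D, 0 < hw D → 5 ^ m * (T m D).card ≤ 7 ^ m * hw D := by
  induction m with
  | zero => intro D hD; simp [T]; exact hD
  | succ m ih =>
    intro D hD
    have hp : ∀ e (y : ℕ), 5 ^ m * (if 0 < hw (stepV D e) then
        (T m (stepV D e)).image (fun l => y :: l) else ∅ : Finset (List ℕ)).card ≤
        7 ^ m * hw (stepV D e) := by
      intro e y
      by_cases h : 0 < hw (stepV D e)
      · rw [if_pos h]
        exact (Nat.mul_le_mul_left _ Finset.card_image_le).trans (ih _ h)
      · rw [if_neg h]; simp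
    have h1 := hp 0 0
    have h2 := hp 0 1
    have h3 := hp 1 1
    have h4 := hp (-1) 0
    have hm := wt_ineq _ (hof_mem wt D hD)
    simp only at hm
    have hm' : 5 * (2 * hw (stepV D 0) + hw (stepV D 1) + hw (stepV D (-1))) ≤ 7 * hw D := hm
    have hc : (T (m + 1) D).card ≤
        ((if 0 < hw (stepV D 0) then (T m (stepV D 0)).image (fun l => 0 :: l) else ∅ :
          Finset (List ℕ)).card +
        (if 0 < hw (stepV D 0) then (T m (stepV D 0)).image (fun l => 1 :: l) else ∅ :
          Finset (List ℕ)).card) +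
        ((if 0 < hw (stepV D 1) then (T m (stepV D 1)).image (fun l => 1 :: l) else ∅ :
          Finset (List ℕ)).card +
        (if 0 < hw (stepV D (-1)) then (T m (stepV D (-1))).image (fun l => 0 :: l) else ∅ :
          Finset (List ℕ)).card) := by
      rw [T]
      exact (Finset.card_union_le _ _).trans
        (Nat.add_le_add (Finset.card_union_le _ _) (Finset.card_union_le _ _))
    calc 5 ^ (m + 1) * (T (m + 1) D).card ≤ 5 ^ (m + 1) * _ := Nat.mul_le_mul_left _ hc
      _ = 5 * (5 ^ m * _ + 5 ^ m * _ + (5 ^ m * _ + 5 ^ m * _)) := by rw [pow_succ]; ring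
      _ ≤ 5 * (7 ^ m * hw (stepV D 0) + 7 ^ m * hw (stepV D 0) +
          (7 ^ m * hw (stepV D 1) + 7 ^ m * hw (stepV D (-1)))) :=
          Nat.mul_le_mul_left _ (Nat.add_le_add (Nat.add_le_add h1 h2) (Nat.add_le_add h3 h4))
      _ = 7 ^ m * (5 * (2 * hw (stepV D 0) + hw (stepV D 1) + hw (stepV D (-1)))) := by ring
      _ ≤ 7 ^ m * (7 * hw D) := Nat.mul_le_mul_left _ hm'
      _ = 7 ^ (m + 1) * hw D := by rw [pow_succ]; ring

/-- list of values, most significant first -/
def dl (a : ℕ → ℕ) (q : ℕ) : ℕ → List ℕ
  | 0 => []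
  | m + 1 => a (q + m) :: dl a q m

theorem dl_inj (a b : ℕ → ℕ) (q m : ℕ) (h : dl a q m = dl b q m) :
    ∀ i < m, a (q + i) = b (q + i) := by
  induction m with
  | zero => intro i hi; omega
  | succ m ih =>
    simp only [dl, List.cons.injEq] at h
    intro i hi
    rcases Nat.lt_or_ge i m with h1 | h1
    · exact ih h.2 i h1
    · have : i = m := by omega
      rw [this]; exact h.1

theorem mem_T (Dd : ℕ → ℤ × ℤ × ℤ) (a a' : ℕ → ℕ) (q m : ℕ) (ha : ∀ i, a i ≤ 1)
    (ha' : ∀ i, a' i ≤ 1)
    (hstep : ∀ i < m, Dd (q + i) = stepV (Dd (q + i + 1)) ((a (q + i) : ℤ) - a' (q + i)))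
    (hpos : ∀ i ≤ m, 0 < hw (Dd (q + i))) : dl a q m ∈ T m (Dd (q + m)) := by
  induction m with
  | zero => simp [dl, T]
  | succ m ih =>
    have ih' := ih (fun i hi => hstep i (by omega)) (fun i hi => hpos i (by omega))
    have hs := hstep m (by omega)
    have hp := hpos m (by omega)
    have h1 := ha (q + m)
    have h2 := ha' (q + m)
    have e : Dd (q + (m + 1)) = Dd (q + m + 1) := rfl
    rw [e, T, dl]
    simp only [Finset.mem_union]
    rcases Nat.eq_zero_or_pos (a (q + m)) with h3 | h3 <;>
    rcases Nat.eq_zero_or_pos (a' (q + m)) with h4 | h4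
    · rw [h3, h4] at hs
      have hs' : Dd (q + m) = stepV (Dd (q + m + 1)) 0 := by simpa using hs
      rw [hs'] at hp ih'
      left; left
      rw [if_pos hp, h3]
      exact Finset.mem_image_of_mem _ ih'
    · have h4' : a' (q + m) = 1 := by omega
      rw [h3, h4'] at hs
      have hs' : Dd (q + m) = stepV (Dd (q + m + 1)) (-1) := by simpa using hs
      rw [hs'] at hp ih'
      right; right
      rw [if_pos hp, h3]
      exact Finset.mem_image_of_mem _ ih'
    · have h3' : a (q + m) = 1 := by omega
      rw [h3', h4] at hs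
      have hs' : Dd (q + m) = stepV (Dd (q + m + 1)) 1 := by simpa using hs
      rw [hs'] at hp ih'
      right; left
      rw [if_pos hp, h3']
      exact Finset.mem_image_of_mem _ ih'
    · have h3' : a (q + m) = 1 := by omega
      have h4' : a' (q + m) = 1 := by omega
      rw [h3', h4'] at hs
      have hs' : Dd (q + m) = stepV (Dd (q + m + 1)) 0 := by simpa using hs
      rw [hs'] at hp ih'
      left; right
      rw [if_pos hp, h3']
      exact Finset.mem_image_of_mem _ ih'

section add

variable {r : ℕ → Fin 3} (hr : IsFixedPoint r)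

/-- difference vector of the addition `N + c` at level `q` -/
noncomputable def Dl (r : ℕ → Fin 3) (c N q : ℕ) : ℤ × ℤ × ℤ :=
  vec r (blkno r q (N + c)) - vec r (blkno r q N) - vec r (blkno r q c)

include hr in
theorem vec_blkno (q n : ℕ) :
    vec r (blkno r q n) = stepV (vec r (blkno r (q + 1) n)) (dgt r q n) := by
  conv_lhs => rw [blkno_step r q n]
  exact vec_P hr _ _ (dgt_le r q n)

include hr in
theorem Dl_step (c N q : ℕ) : Dl r c N q = stepV (Dl r c N (q + 1))
    ((dgt r q (N + c) : ℤ) - dgt r q N - dgt r q c) := by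
  unfold Dl
  rw [stepV_sub, stepV_sub, ← vec_blkno hr, ← vec_blkno hr, ← vec_blkno hr]

include hr in
theorem ev_Dl (c N q : ℕ) : ev (Dl r c N q) q =
    (low r 0 q N : ℤ) + low r 0 q c - low r 0 q (N + c) := by
  unfold Dl
  rw [ev_sub, ev_sub, ev_vec, ev_vec, ev_vec]
  have h1 := S_low hr 0 q (N + c)
  have h2 := S_low hr 0 q N
  have h3 := S_low hr 0 q c
  rw [S_zero, Nat.zero_add] at h1 h2 h3
  omega

include hr in
theorem Dl_mem (c N : ℕ) : ∀ q, 2 ≤ q → Dl r c N q ∈ Rset := by
  have key : ∀ k q, 2 ≤ q → q + k = N + c + 2 → Dl r c N q ∈ Rset := by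
    intro k
    induction k with
    | zero =>
      intro q hq hk
      have h1 := blkno_large hr q (N + c) (by omega)
      have h2 := blkno_large hr q N (by omega)
      have h3 := blkno_large hr q c (by omega)
      unfold Dl
      rw [h1, h2, h3]
      exact R_zero
    | succ k ih =>
      intro q hq hk
      have h := ih (q + 1) (by omega) (by omega)
      have hs := Dl_step hr c N q
      have a1 := dgt_le r q (N + c)
      have a2 := dgt_le r q N
      have a3 := dgt_le r q c
      have hmem : ((dgt r q (N + c) : ℤ) - dgt r q N - dgt r q c) ∈ ([-2, -1, 0, 1] : List ℤ) := by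
        simp only [List.mem_cons, List.not_mem_nil, or_false]
        omega
      have hev := ev_Dl hr c N q
      have l1 := low_lt_W hr q (N + c)
      have l2 := low_lt_W hr q N
      have l3 := low_lt_W hr q c
      have hV := V_W q
      rcases R_closed _ h _ hmem with h1 | h1 | h1
      · rw [hs]; exact h1
      · exfalso
        rw [← hs] at h1
        have := exHi_ev _ _ h1 q hq
        rw [hev, hV] at this
        omega
      · exfalso
        rw [← hs] at h1
        have := exLo_ev _ h1 q hq
        rw [hev, hV] at this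
        omega
  intro q hq
  rcases Nat.lt_or_ge q (N + c + 2) with h | h
  · exact key (N + c + 2 - q) q hq (by omega)
  · have h1 := blkno_large hr q (N + c) (by omega)
    have h2 := blkno_large hr q N (by omega)
    have h3 := blkno_large hr q c (by omega)
    unfold Dl
    rw [h1, h2, h3]
    exact R_zero

include hr in
/-- values at the lower end of a stretch -/
theorem ev_low (c N q m : ℕ) : ev (Dl r c N q) 0 = ev (Dl r c N (q + m)) m +
    ∑ i ∈ Finset.range m, ((dgt r (q + i) (N + c) : ℤ) - dgt r (q + i) N - dgt r (q + i) c) * W i := by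
  induction m with
  | zero => simp
  | succ m ih =>
    rw [ih, Finset.sum_range_succ, Dl_step hr c N (q + m), ev_step, V_W]
    have : Dl r c N (q + (m + 1)) = Dl r c N (q + m + 1) := rfl
    rw [this]
    ring

end add

end Pool.Agent.H74.TR
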