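import Pool.Agent.H74.TR.Path

namespace Pool.Agent.H74.TR

section und

variable {r : ℕ → Fin 3} (hr : IsFixedPoint r)

include hr in
theorem letter_formula (n : ℕ) : r n = if dgt r 0 n = 0 then 0 else
    if dgt r 1 n = 0 then 1 else 2 := by
  have e0 : dgt r 0 n = dg r n := rfl
  have e1 : dgt r 1 n = dg r (pi r n) := rfl
  rw [e0, e1]
  have h1 := letter hr n
  have h2 := letter hr (pi r n)
  obtain ⟨-, a2, a3⟩ := pi_spec r n
  obtain ⟨-, b2, b3⟩ := pi_spec r (pi r n)
  by_cases h : dg r n = 0
  · rw [if_pos h] at h1 ⊢; exact h1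
  · rw [if_neg h] at h1 ⊢
    have hn : r (pi r n) ≠ 2 := a3 (by omega)
    by_cases h' : dg r (pi r n) = 0
    · rw [if_pos h'] at h2 ⊢
      rw [h1, h2]; decide
    · rw [if_neg h'] at h2 ⊢
      have hn' : r (pi r (pi r n)) ≠ 2 := b3 (by omega)
      rw [h1]
      rw [h2] at hn ⊢
      revert hn hn'
      generalize r (pi r (pi r n)) = a
      revert a
      decide

include hr in
theorem letter_eq (n n' : ℕ) (h0 : dgt r 0 n = dgt r 0 n') (h1 : dgt r 1 n = dgt r 1 n') :
    r n = r n' := by
  rw [letter_formula hr n, letter_formula hr n', h0, h1]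

/-- The suffixes (as numbers) of length `m` for which the shifted letters at level `j` are not
determined. -/
def Und (r : ℕ → Fin 3) (c m j : ℕ) : Set ℕ :=
  {l | ∃ n n' t, low r 0 m n = l ∧ low r 0 m n' = l ∧ t < len j (r n) ∧ t < len j (r n') ∧
    r (S r j n + t + c) ≠ r (S r j n' + t + c)}

theorem card_of_rel {X : Type} [Nonempty X] (U : Set ℕ) (F : Finset X) (Rel : ℕ → X → Prop)
    (h1 : ∀ l ∈ U, ∃ x ∈ F, Rel l x) (h2 : ∀ x l l', Rel l x → Rel l' x → l = l') :
    U.ncard ≤ F.card := by
  classical
  choose! f hf using h1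
  rw [← Set.ncard_coe_finset]
  apply Set.ncard_le_ncard_of_injOn f
  · intro l hl
    exact (hf l hl).1
  · intro l hl l' hl' hh
    exact h2 (f l) l l' (hf l hl).2 (by rw [hh]; exact (hf l' hl').2)

/-- the sum of all weights -/
noncomputable def H0 : ℕ := ∑ D ∈ (wt.map Prod.fst).toFinset, hw D

noncomputable def C0 : ℕ := 4 * (32 * 32) * H0

include hr in
theorem und_card (c m j : ℕ) (hm : 2 ≤ m) : 5 ^ m * (Und r c m j).ncard ≤ 7 ^ m * C0 := by
  classical
  let i := 2 - j
  let js := j + i
  let ms := m - i
  let p := m + j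
  have hi : i ≤ 2 := by omega
  have hjs : 2 ≤ js := by omega
  have hp : js + ms = p := by omega
  let F : Finset (((ℕ × ℕ) × ((ℤ × ℤ × ℤ) × (ℤ × ℤ × ℤ))) × List ℕ) :=
    ((Finset.range 2 ×ˢ Finset.range 2) ×ˢ (Rset.toFinset ×ˢ Rset.toFinset)) ×ˢ
      ((wt.map Prod.fst).toFinset.biUnion (T ms))
  let Rel : ℕ → (((ℕ × ℕ) × ((ℤ × ℤ × ℤ) × (ℤ × ℤ × ℤ))) × List ℕ) → Prop := fun l x =>
    ∃ n t, low r 0 m n = l ∧ t < len j (r n) ∧
      x = (((dgt r 0 n, dgt r 1 n), (Dl r c (S r j n + t) p, Dl r c (S r j n + t) js)),
        dl (fun q => dgt r q (S r j n + t + c)) js ms)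
  have hcard : (Und r c m j).ncard ≤ F.card := by
    apply card_of_rel _ F Rel
    · rintro l ⟨n, n', t, hl, hl', ht, ht', hne⟩
      refine ⟨_, ?_, n, t, hl, ht, rfl⟩
      -- facts
      have b1 := blkno_S hr j n t ht
      have b2 := blkno_S hr j n' t ht'
      have hdig : ∀ q < p, dgt r q (S r j n + t) = dgt r q (S r j n' + t) := by
        intro q hq
        rcases Nat.lt_or_ge q j with h | h
        · have e1 := low_S hr j n t ht
          have e2 := low_S hr j n' t ht'
          exact low_inj hr j _ _ (e1.trans e2.symm) q h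
        · obtain ⟨x, rfl⟩ : ∃ x, q = x + j := ⟨q - j, by omega⟩
          rw [dgt_add, dgt_add, b1, b2]
          exact low_inj hr m _ _ (hl.trans hl'.symm) x (by omega)
      have hlow : ∀ q ≤ p, low r 0 q (S r j n + t) = low r 0 q (S r j n' + t) := by
        intro q hq
        exact low_congr 0 q _ _ (fun x hx => hdig x (by omega))
      let Dd : ℕ → ℤ × ℤ × ℤ := fun q => Dl r c (S r j n + t) q - Dl r c (S r j n' + t) q
      have hpos : ∀ q, 2 ≤ q → q ≤ p → 0 < hw (Dd q) := by
        intro q h2 hq
        have m1 := Dl_mem hr c (S r j n + t) q h2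
        have m2 := Dl_mem hr c (S r j n' + t) q h2
        have ev1 := ev_Dl hr c (S r j n + t) q
        have ev2 := ev_Dl hr c (S r j n' + t) q
        have hev : ev (Dd q) q =
            (low r 0 q (S r j n' + t + c) : ℤ) - low r 0 q (S r j n + t + c) := by
          show ev (_ - _) q = _
          rw [ev_sub, ev1, ev2, hlow q hq]
          ring
        have l1 := low_lt_W hr q (S r j n + t + c)
        have l2 := low_lt_W hr q (S r j n' + t + c)
        have hV := V_W q
        rcases R_diff _ m1 _ m2 with h | h | h | h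
        · exfalso
          apply hne
          have h0 : ev (Dd q) q = 0 := by
            show ev (_ - _) q = 0
            rw [ev_sub, h, sub_self]
          rw [hev] at h0
          have h3 : low r 0 q (S r j n + t + c) = low r 0 q (S r j n' + t + c) := by omega
          have h4 := low_inj hr q _ _ h3
          exact letter_eq hr _ _ (h4 0 (by omega)) (h4 1 (by omega))
        · exact h
        · exfalso
          have := exHi_ev _ _ h q h2
          have hev' : ev (Dl r c (S r j n + t) q - Dl r c (S r j n' + t) q) q =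
            (low r 0 q (S r j n' + t + c) : ℤ) - low r 0 q (S r j n + t + c) := hev
          rw [hev', hV] at this
          omega
        · exfalso
          have := exLo_ev _ h q h2
          have hev' : ev (Dl r c (S r j n + t) q - Dl r c (S r j n' + t) q) q =
            (low r 0 q (S r j n' + t + c) : ℤ) - low r 0 q (S r j n + t + c) := hev
          rw [hev', hV] at this
          omega
      have hT := mem_T Dd (fun q => dgt r q (S r j n + t + c))
        (fun q => dgt r q (S r j n' + t + c)) js ms (fun i => dgt_le r i _)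
        (fun i => dgt_le r i _)
        (by
          intro x hx
          show Dl r c (S r j n + t) (js + x) - Dl r c (S r j n' + t) (js + x) = _
          rw [Dl_step hr c (S r j n + t), Dl_step hr c (S r j n' + t), hdig (js + x) (by omega),
            ← stepV_sub]
          congr 1
          ring)
        (fun x hx => hpos _ (by omega) (by omega))
      rw [hp] at hT
      simp only [F, Finset.mem_product, Finset.mem_range, List.mem_toFinset, Finset.mem_biUnion]
      have d0 := dgt_le r 0 n
      have d1 := dgt_le r 1 n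
      refine ⟨⟨⟨by omega, by omega⟩, Dl_mem hr c _ p (by omega), Dl_mem hr c _ js hjs⟩,
        Dd p, ?_, hT⟩
      have := hof_mem wt (Dd p) (hpos p (by omega) (le_refl p))
      exact List.mem_map_of_mem (f := Prod.fst) this
    · rintro x l l' ⟨n, t, hl, ht, hx⟩ ⟨n', t', hl', ht', hx'⟩
      rw [hx] at hx'
      simp only [Prod.mk.injEq] at hx'
      obtain ⟨⟨⟨e0, e1⟩, eP, eJ⟩, eL⟩ := hx'
      have b1 := blkno_S hr j n t ht
      have b2 := blkno_S hr j n' t' ht'
      have g1 := ev_low hr c (S r j n + t) js ms
      have g2 := ev_low hr c (S r j n' + t') js ms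
      rw [hp] at g1 g2
      rw [← eJ, ← eP] at g2
      have hA := dl_inj _ _ js ms eL
      have hsum : ∑ y ∈ Finset.range ms, (dgt r (js + y) (S r j n + t) : ℤ) * W y =
          ∑ y ∈ Finset.range ms, (dgt r (js + y) (S r j n' + t') : ℤ) * W y := by
        have k1 : ∀ N : ℕ, ∑ y ∈ Finset.range ms, ((dgt r (js + y) (N + c) : ℤ) -
            dgt r (js + y) N - dgt r (js + y) c) * W y =
            ∑ y ∈ Finset.range ms, (dgt r (js + y) (N + c) : ℤ) * W y -
            ∑ y ∈ Finset.range ms, (dgt r (js + y) N : ℤ) * W y -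
            ∑ y ∈ Finset.range ms, (dgt r (js + y) c : ℤ) * W y := by
          intro N
          rw [← Finset.sum_sub_distrib, ← Finset.sum_sub_distrib]
          apply Finset.sum_congr rfl
          intro y _
          ring
        rw [k1] at g1 g2
        have k2 : ∑ y ∈ Finset.range ms, (dgt r (js + y) (S r j n + t + c) : ℤ) * W y =
            ∑ y ∈ Finset.range ms, (dgt r (js + y) (S r j n' + t' + c) : ℤ) * W y := by
          apply Finset.sum_congr rfl
          intro y hy
          have := hA y (Finset.mem_range.mp hy)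
          rw [this]
        rw [k2] at g1
        linarith
      have hlow2 : low r 0 ms (blkno r js (S r j n + t)) =
          low r 0 ms (blkno r js (S r j n' + t')) := by
        unfold low
        have k3 : ∀ N, (∑ y ∈ Finset.range ms, dgt r y (blkno r js N) * W (y + 0)) =
            ∑ y ∈ Finset.range ms, dgt r (js + y) N * W y := by
          intro N
          apply Finset.sum_congr rfl
          intro y _
          rw [Nat.add_comm js y, dgt_add]
          rfl
        rw [k3, k3]
        exact_mod_cast hsum
      have hdig2 := low_inj hr ms _ _ hlow2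
      have hall : ∀ y < m, dgt r y n = dgt r y n' := by
        intro y hy
        rcases Nat.lt_or_ge y 2 with h | h
        · interval_cases y
          · exact e0
          · exact e1
        · have := hdig2 (y - i) (by omega)
          rw [← dgt_add, ← dgt_add] at this
          have e : y - i + js = y + j := by omega
          rw [e, dgt_add, dgt_add, b1, b2] at this
          exact this
      rw [← hl, ← hl']
      exact low_congr 0 m n n' hall
  have hF : F.card ≤ 4 * (32 * 32) * ∑ D ∈ (wt.map Prod.fst).toFinset, (T ms D).card := by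
    simp only [F, Finset.card_product, Finset.card_range]
    have hR : Rset.toFinset.card ≤ 32 := List.toFinset_card_le Rset
    have hU := Finset.card_biUnion_le (s := (wt.map Prod.fst).toFinset) (t := T ms)
    exact Nat.mul_le_mul (Nat.mul_le_mul (le_refl _) (Nat.mul_le_mul hR hR)) hU
  have hsumT : 5 ^ ms * ∑ D ∈ (wt.map Prod.fst).toFinset, (T ms D).card ≤ 7 ^ ms * H0 := by
    unfold H0
    rw [Finset.mul_sum, Finset.mul_sum]
    apply Finset.sum_le_sum
    intro D hD
    apply T_card
    have : ∀ p ∈ wt, 0 < hw p.1 := by decide +kernel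
    rw [List.mem_toFinset, List.mem_map] at hD
    obtain ⟨p, hp1, hp2⟩ := hD
    rw [← hp2]
    exact this p hp1
  have hpow5 : 5 ^ m = 5 ^ i * 5 ^ ms := by rw [← pow_add]; congr 1; omega
  have hpow7 : 7 ^ m = 7 ^ i * 7 ^ ms := by rw [← pow_add]; congr 1; omega
  have h57 : 5 ^ i ≤ 7 ^ i := Nat.pow_le_pow_left (by norm_num) i
  calc 5 ^ m * (Und r c m j).ncard
      ≤ 5 ^ m * (4 * (32 * 32) * ∑ D ∈ (wt.map Prod.fst).toFinset, (T ms D).card) :=
        Nat.mul_le_mul_left _ (hcard.trans hF)
    _ = 5 ^ i * (4 * (32 * 32) *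
        (5 ^ ms * ∑ D ∈ (wt.map Prod.fst).toFinset, (T ms D).card)) := by rw [hpow5]; ring
    _ ≤ 7 ^ i * (4 * (32 * 32) * (7 ^ ms * H0)) :=
        Nat.mul_le_mul h57 (Nat.mul_le_mul_left _ hsumT)
    _ = 7 ^ m * C0 := by rw [hpow7, C0]; ring

end und

end Pool.Agent.H74.TR
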