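import Pool.Agent.H74.TR.Basic

namespace Pool.Agent.H74.TR

section cplx

variable {r : ℕ → Fin 3} (hr : IsFixedPoint r)

theorem P_add_agree (a b : ℕ) (m : ℕ) (h : ∀ t < m, r (a + t) = r (b + t)) :
    ∃ L, P r (a + m) = P r a + L ∧ P r (b + m) = P r b + L ∧ m ≤ L ∧
      (0 < m → r a ≠ 2 → m + 1 ≤ L) := by
  induction m with
  | zero => exact ⟨0, by simp⟩
  | succ m ih =>
    obtain ⟨L, h1, h2, h3, h4⟩ := ih (fun t ht => h t (by omega))
    refine ⟨L + (if r (a + m) = 2 then 1 else 2), ?_, ?_, ?_, ?_⟩
    · rw [← Nat.add_assoc a, P_succ', h1]; omega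
    · rw [← Nat.add_assoc b, P_succ', h2, h m (by omega)]; omega
    · split <;> omega
    · intro _ h5
      rcases Nat.eq_zero_or_pos m with h6 | h6
      · subst h6
        rw [Nat.add_zero a, if_neg h5]
        omega
      · have := h4 h6 h5
        split <;> omega

include hr in
theorem image_agree (a b : ℕ) (m : ℕ) (h : ∀ t < m, r (a + t) = r (b + t)) :
    ∀ x, P r a + x < P r (a + m) → r (P r a + x) = r (P r b + x) := by
  induction m with
  | zero => intro x hx; simp at hx
  | succ m ih =>
    intro x hx
    obtain ⟨L, h1, h2, h3, -⟩ := P_add_agree (r := r) a b m (fun t ht => h t (by omega))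
    by_cases hx' : P r a + x < P r (a + m)
    · exact ih (fun t ht => h t (by omega)) x hx'
    · have hm := h m (by omega)
      have e := P_succ' r (a + m)
      have hx2 : x = L ∨ (x = L + 1 ∧ r (a + m) ≠ 2) := by
        have : P r (a + (m + 1)) = P r (a + m + 1) := rfl
        rw [this, e, h1] at hx
        rw [h1] at hx'
        by_cases h2 : r (a + m) = 2
        · rw [if_pos h2] at hx; left; omega
        · rw [if_neg h2] at hx
          by_cases hxL : x = L
          · left; exact hxL
          · right; exact ⟨by omega, h2⟩
      rcases hx2 with hx2 | ⟨hx2, hne⟩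
      · subst hx2
        rw [← h1, ← h2, r_P hr, r_P hr]
      · subst hx2
        rw [← Nat.add_assoc, ← Nat.add_assoc, ← h1, ← h2, r_P1 hr, r_P1 hr, hm]

include hr in
theorem r_zero_of_succ (n : ℕ) (h : r (n + 1) ≠ 0) : r n = 0 := by
  obtain ⟨m, hm | ⟨hm, -⟩⟩ := cover r (n + 1)
  · rw [hm, r_P hr] at h
    exact absurd rfl h
  · have : n = P r m := by omega
    rw [this, r_P hr]

include hr in
theorem exists_P_of_zero (n : ℕ) (h : r n = 0) : ∃ m, n = P r m := by
  obtain ⟨m, hm | ⟨hm, h2⟩⟩ := cover r n
  · exact ⟨m, hm⟩
  · exfalso
    rw [hm, r_P1 hr] at h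
    have : ∀ a : Fin 3, a + 1 = 0 → a = 2 := by decide
    exact h2 (this _ h)

include hr in
theorem prev_letter (a n : ℕ) (h : n + 1 = P r (a + 1)) : r n = r a + 1 := by
  rw [P_succ'] at h
  by_cases h2 : r a = 2
  · rw [if_pos h2] at h
    have : n = P r a := by omega
    rw [this, r_P hr, h2]; decide
  · rw [if_neg h2] at h
    have : n = P r a + 1 := by omega
    rw [this, r_P1 hr]

include hr in
/-- A factor with two different left extensions is a prefix. -/
theorem left_special (n : ℕ) : ∀ i j, r i ≠ r j → (∀ t < n, r (i + 1 + t) = r (j + 1 + t)) →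
    ∀ t < n, r (i + 1 + t) = r t := by
  induction n using Nat.strong_induction_on with
  | _ n ih =>
    intro i j hij h t ht
    rcases Nat.lt_or_ge t (n - 1) with h1 | h1
    · exact ih (n - 1) (by omega) i j hij (fun t ht => h t (by omega)) t h1
    · obtain ⟨N, rfl⟩ : ∃ N, n = N + 1 := ⟨n - 1, by omega⟩
      have htN : t = N := by omega
      subst htN
      have h0 : r (i + 1) = 0 := by
        by_contra hc
        have hj : r (j + 1) ≠ 0 := by
          have := h 0 (by omega)
          rw [Nat.add_zero, Nat.add_zero] at this
          rw [← this]; exact hc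
        exact hij ((r_zero_of_succ hr i hc).trans (r_zero_of_succ hr j hj).symm)
      have h0' : r (j + 1) = 0 := by
        have := h 0 (by omega)
        rw [Nat.add_zero, Nat.add_zero] at this
        rw [← this]; exact h0
      rcases Nat.eq_zero_or_pos t with hz | hpos
      · subst hz
        rw [Nat.add_zero, h0, hr.1]
      · obtain ⟨i', hi'⟩ := exists_P_of_zero hr (i + 1) h0
        obtain ⟨j', hj'⟩ := exists_P_of_zero hr (j + 1) h0'
        obtain ⟨a, rfl⟩ : ∃ a, i' = a + 1 := by
          rcases i' with _ | a
          · rw [P_zero] at hi'; omega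
          · exact ⟨a, rfl⟩
        obtain ⟨b, rfl⟩ : ∃ b, j' = b + 1 := by
          rcases j' with _ | b
          · rw [P_zero] at hj'; omega
          · exact ⟨b, rfl⟩
        have hab : r a ≠ r b := by
          intro hc
          apply hij
          rw [prev_letter hr a i hi', prev_letter hr b j hj', hc]
        -- decoding
        have dec : ∀ s, (∀ u < s, P r u + 1 ≤ t) → s ≤ t →
            ∀ u < s, r (a + 1 + u) = r (b + 1 + u) := by
          intro s
          induction s with
          | zero => intro _ _ u hu; omega
          | succ s ihs =>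
            intro h2 hst u hu
            have ih2 := ihs (fun u hu => h2 u (by omega)) (by omega)
            rcases Nat.lt_or_ge u s with h3 | h3
            · exact ih2 u h3
            · have hus : u = s := by omega
              subst hus
              have hpre := ih u (by omega) a b hab ih2
              have hpre' : ∀ v < u, r (b + 1 + v) = r v := fun v hv => by
                rw [← ih2 v hv]; exact hpre v hv
              obtain ⟨L, e1, e2, -, -⟩ := P_add_agree (r := r) (a + 1) 0 u
                (fun v hv => by rw [Nat.zero_add]; exact hpre v hv)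
              obtain ⟨L', e3, e4, -, -⟩ := P_add_agree (r := r) (b + 1) 0 u
                (fun v hv => by rw [Nat.zero_add]; exact hpre' v hv)
              rw [Nat.zero_add, P_zero, Nat.zero_add] at e2 e4
              have hP := h2 u (by omega)
              have hh := h (P r u + 1) (by omega)
              have g1 : i + 1 + (P r u + 1) = P r (a + 1 + u) + 1 := by rw [e1, ← hi']; omega
              have g2 : j + 1 + (P r u + 1) = P r (b + 1 + u) + 1 := by rw [e3, ← hj']; omega
              rw [g1, g2, r_P1 hr, r_P1 hr] at hh
              exact add_right_cancel hh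
        obtain ⟨m, hm | ⟨hm, hm2⟩⟩ := cover r t
        · -- t = P m
          have hmt : m ≤ t := by rw [hm]; exact P_ge r m
          have hbnd : ∀ u < m, P r u + 1 ≤ t := by
            intro u hu
            rw [hm]
            obtain ⟨L, e1, e2, e3, -⟩ := P_add_agree (r := r) u u (m - u) (fun _ _ => rfl)
            have : u + (m - u) = m := by omega
            rw [this] at e1
            omega
          have hd := dec m hbnd hmt
          have hpre := ih m (by omega) a b hab hd
          obtain ⟨L, e1, e2, -, -⟩ := P_add_agree (r := r) (a + 1) 0 m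
            (fun v hv => by rw [Nat.zero_add]; exact hpre v hv)
          rw [Nat.zero_add, P_zero, Nat.zero_add] at e2
          have g1 : i + 1 + t = P r (a + 1 + m) := by rw [e1, ← hi', hm]; omega
          rw [g1, hm, r_P hr, r_P hr]
        · have hmt : m + 1 ≤ t := by rw [hm]; exact Nat.succ_le_succ (P_ge r m)
          have hbnd : ∀ u < m + 1, P r u + 1 ≤ t := by
            intro u hu
            rw [hm]
            obtain ⟨L, e1, e2, e3, -⟩ := P_add_agree (r := r) u u (m - u) (fun _ _ => rfl)
            have : u + (m - u) = m := by omega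
            rw [this] at e1
            omega
          have hd := dec (m + 1) hbnd hmt
          have hpre := ih (m + 1) (by omega) a b hab hd
          obtain ⟨L, e1, e2, -, -⟩ := P_add_agree (r := r) (a + 1) 0 m
            (fun v hv => by rw [Nat.zero_add]; exact hpre v (by omega))
          rw [Nat.zero_add, P_zero, Nat.zero_add] at e2
          have g1 : i + 1 + t = P r (a + 1 + m) + 1 := by rw [e1, ← hi', hm]; omega
          rw [g1, hm, r_P1 hr, r_P1 hr, hpre m (by omega)]

/-- the factor of length `n` at position `i` -/
def fac (r : ℕ → Fin 3) (n i : ℕ) : Fin n → Fin 3 := fun t => r (i + t)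

include hr in
theorem card_fac (n : ℕ) : (Set.range (fac r n)).ncard ≤ 2 * n + 1 := by
  induction n with
  | zero =>
    have := Set.ncard_le_ncard (Set.subset_univ (Set.range (fac r 0))) (Set.finite_univ)
    refine this.trans ?_
    rw [Set.ncard_univ]
    simp
  | succ n ih =>
    classical
    -- split by whether the tail is the prefix
    let A := Set.range (fac r (n + 1))
    let B := Set.range (fac r n)
    let p := fac r n 0
    have hpB : p ∈ B := ⟨0, rfl⟩
    let A1 : Set (Fin (n + 1) → Fin 3) := {u ∈ A | Fin.tail u = p}
    let A2 : Set (Fin (n + 1) → Fin 3) := {u ∈ A | Fin.tail u ≠ p}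
    have hA : A ⊆ A1 ∪ A2 := by
      intro u hu
      by_cases h : Fin.tail u = p
      · exact Or.inl ⟨hu, h⟩
      · exact Or.inr ⟨hu, h⟩
    have h1 : A1.ncard ≤ 3 := by
      have hsub : A1 ⊆ Set.range (fun a : Fin 3 => (Fin.cons a p : Fin (n + 1) → Fin 3)) := by
        rintro u ⟨-, hu⟩
        exact ⟨u 0, by simp only; rw [← hu, Fin.cons_self_tail]⟩
      refine (Set.ncard_le_ncard hsub (Set.toFinite _)).trans ?_
      rw [← Set.image_univ]
      refine (Set.ncard_image_le (Set.toFinite _)).trans ?_
      rw [Set.ncard_univ]
      simp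
    have htail : ∀ i, Fin.tail (fac r (n + 1) i) = fac r n (i + 1) := by
      intro i
      funext t
      simp only [Fin.tail, fac, Fin.val_succ]
      congr 1
      omega
    have h2 : A2.ncard ≤ (B \ {p}).ncard := by
      refine Set.ncard_le_ncard_of_injOn Fin.tail ?_ ?_ (Set.toFinite _)
      · rintro u ⟨⟨i, rfl⟩, hu⟩
        refine ⟨⟨i + 1, (htail i).symm⟩, hu⟩
      · rintro u ⟨⟨i, rfl⟩, hu⟩ v ⟨⟨j, rfl⟩, hv⟩ huv
        rw [htail, htail] at huv
        rw [htail] at hu
        have hagree : ∀ t < n, r (i + 1 + t) = r (j + 1 + t) := by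
          intro t ht
          exact congrFun huv ⟨t, ht⟩
        have hij : r i = r j := by
          by_contra hc
          apply hu
          funext t
          have := left_special hr n i j hc hagree t t.isLt
          simpa [fac, p] using this
        funext t
        refine Fin.cases ?_ (fun t => ?_) t
        · simpa [fac] using hij
        · have := hagree t t.isLt
          simp only [fac, Fin.val_succ]
          rw [show i + (↑t + 1) = i + 1 + ↑t by omega, show j + (↑t + 1) = j + 1 + ↑t by omega]
          exact this
    have h3 : (B \ {p}).ncard + 1 = B.ncard := Set.ncard_sdiff_singleton_add_one hpB (Set.toFinite _)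
    have h4 : A.ncard ≤ A1.ncard + A2.ncard :=
      (Set.ncard_le_ncard hA (Set.toFinite _)).trans (Set.ncard_union_le _ _)
    show A.ncard ≤ _
    have : B.ncard ≤ 2 * n + 1 := ih
    omega

end cplx

end Pool.Agent.H74.TR
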